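import Pool.Agent.MP_80c6d6_ag.Defs

set_option autoImplicit false
set_option linter.style.haveILetI false

open Filter
open scoped ENNReal NNReal TensorProduct

namespace Pool.Agent.MP_80c6d6_ag

universe u

/-- A pure, module-finite map out of a Noetherian ring splits. -/
theorem exists_retraction_of_pure {A B : Type u} [CommRing A] [CommRing B] [IsNoetherianRing A]
    (f : A →+* B) (hfin : f.Finite) (hp : IsPureHom f) :
    ∃ φ : B →+ A, (∀ r x, φ (f r * x) = r * φ x) ∧ φ 1 = 1 := by
  letI : Algebra A B := f.toAlgebra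
  haveI : Module.Finite A B := hfin
  have hp' : ∀ (M : Type u) [AddCommGroup M] [Module A M],
      Function.Injective (fun m : M => (1 : B) ⊗ₜ[A] m) := hp
  have hinj : ∀ a : A, a • (1 : B) = 0 → a = 0 := by
    intro a ha
    apply hp' A
    simp only [TensorProduct.tmul_zero]
    have : (1 : B) ⊗ₜ[A] a = (a • (1 : B)) ⊗ₜ[A] (1 : A) := by
      rw [TensorProduct.smul_tmul, smul_eq_mul, mul_one]
    rw [this, ha, TensorProduct.zero_tmul]
  obtain ⟨n, π, hπ⟩ := Module.Finite.exists_fin' A B
  let N : Submodule A (Fin n → A) := (Submodule.span A {(1 : B)}).comap π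
  have hN : N.FG := IsNoetherian.noetherian N
  obtain ⟨m, v, hv⟩ := Submodule.fg_iff_exists_fin_generating_family.mp hN
  have hvN : ∀ i, v i ∈ N := fun i => hv ▸ Submodule.subset_span ⟨i, rfl⟩
  have hc : ∀ i, ∃ c : A, c • (1 : B) = π (v i) := fun i =>
    Submodule.mem_span_singleton.mp (hvN i)
  choose c hc using hc
  let T : (Fin n → A) →ₗ[A] (Fin m → A) := Matrix.toLin' (Matrix.of v)
  have hT : ∀ y i, T y i = ∑ j, v i j * y j := by
    intro y i
    simp [T, Matrix.toLin'_apply, Matrix.mulVec, dotProduct]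
  have hcT : c ∈ LinearMap.range T := by
    rw [← Submodule.Quotient.mk_eq_zero]
    apply hp' ((Fin m → A) ⧸ LinearMap.range T)
    simp only [TensorProduct.tmul_zero]
    have h1 : (Submodule.Quotient.mk c : (Fin m → A) ⧸ LinearMap.range T) =
        ∑ i, c i • (LinearMap.range T).mkQ (Pi.single i 1) := by
      simp only [← map_smul, ← map_sum]
      change (LinearMap.range T).mkQ c = _
      congr 1
      ext k
      simp [Finset.sum_apply, Pi.single_apply]
    have h2 : ∀ i, π (v i) = ∑ j, v i j • π (Pi.single j 1) := by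
      intro i
      simp only [← map_smul, ← map_sum]
      congr 1
      ext k
      simp [Finset.sum_apply, Pi.single_apply]
    have h3 : ∀ j, ∑ i, v i j • (LinearMap.range T).mkQ (Pi.single i 1) = 0 := by
      intro j
      simp only [← map_smul, ← map_sum]
      rw [Submodule.mkQ_apply, Submodule.Quotient.mk_eq_zero]
      refine ⟨Pi.single j 1, ?_⟩
      ext k
      simp [hT, Finset.sum_apply, Pi.single_apply]
    rw [h1, TensorProduct.tmul_sum]
    simp only [← TensorProduct.smul_tmul, hc, h2, TensorProduct.sum_tmul]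
    rw [Finset.sum_comm]
    apply Finset.sum_eq_zero
    intro j _
    simp only [TensorProduct.smul_tmul]
    rw [← TensorProduct.tmul_sum, h3, TensorProduct.tmul_zero]
  obtain ⟨y, hy⟩ := hcT
  let Y : (Fin n → A) →ₗ[A] A := Fintype.linearCombination A y
  have hY : ∀ i, Y (v i) = c i := by
    intro i
    rw [← hy, hT]
    simp [Y, Fintype.linearCombination_apply]
  have key : ∀ w ∈ N, Y w • (1 : B) = π w := by
    intro w hw
    rw [← hv] at hw
    induction hw using Submodule.span_induction with
    | mem x hx => obtain ⟨i, rfl⟩ := hx; rw [hY, hc]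
    | zero => simp
    | add x y _ _ hx hy => rw [map_add, map_add, add_smul, hx, hy]
    | smul a x _ hx => rw [map_smul, map_smul, smul_eq_mul, mul_smul, hx]
  have hker : LinearMap.ker π ≤ LinearMap.ker Y := by
    intro w hw
    have hw' : π w = 0 := hw
    have : w ∈ N := by simp [N, hw']
    apply hinj
    rw [key w this, hw']
  let φ : B →ₗ[A] A := ((LinearMap.ker π).liftQ Y hker).comp
    (π.quotKerEquivOfSurjective hπ).symm.toLinearMap
  have hφ : ∀ w, φ (π w) = Y w := by
    intro w
    have : (π.quotKerEquivOfSurjective hπ).symm (π w) = Submodule.Quotient.mk w := by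
      rw [LinearEquiv.symm_apply_eq]; rfl
    simp [φ, this]
  refine ⟨φ.toAddMonoidHom, ?_, ?_⟩
  · intro r x
    exact φ.map_smul r x
  · obtain ⟨w, hw⟩ := hπ 1
    have hwN : w ∈ N := by
      change π w ∈ Submodule.span A {(1 : B)}
      rw [hw]; exact Submodule.subset_span rfl
    change φ 1 = 1
    rw [← hw, hφ]
    have := key w hwN
    rw [hw] at this
    have h0 : (Y w - 1) • (1 : B) = 0 := by rw [sub_smul, this, one_smul, sub_self]
    exact sub_eq_zero.mp (hinj _ h0)

/-- A map with a retraction is pure. -/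
theorem isPureHom_of_retraction {A B : Type u} [CommRing A] [CommRing B]
    (f : A →+* B) (φ : B →+ A) (hφ : ∀ r x, φ (f r * x) = r * φ x) (h1 : φ 1 = 1) :
    IsPureHom f := by
  letI : Algebra A B := f.toAlgebra
  intro M _ _
  let φ' : B →ₗ[A] A :=
    { toFun := φ, map_add' := φ.map_add, map_smul' := fun r x => hφ r x }
  let g : B ⊗[A] M →ₗ[A] M := (TensorProduct.lid A M).toLinearMap ∘ₗ (φ'.rTensor M)
  have : ∀ m : M, g ((1 : B) ⊗ₜ[A] m) = m := by
    intro m
    have : φ' 1 = 1 := h1
    simp [g, this]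
  intro a b hab
  have h := congrArg g hab
  simpa [this] using h

/-- Maps out of a finite algebra into a localisation lift up to a denominator. -/
theorem exists_lift_colinear {A B A' : Type u} [CommRing A] [CommRing B] [CommRing A']
    [IsNoetherianRing A] (S : Submonoid A) [Algebra A A'] [IsLocalization S A']
    (f : A →+* B) (hfin : f.Finite) (g : B →+ A')
    (hg : ∀ r x, g (f r * x) = algebraMap A A' r * g x) :
    ∃ φ : B →+ A, (∀ r x, φ (f r * x) = r * φ x) ∧
      ∃ s ∈ S, ∀ x, algebraMap A A' (φ x) = algebraMap A A' s * g x := by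
  letI : Algebra A B := f.toAlgebra
  haveI : Module.Finite A B := hfin
  haveI : Module.FinitePresentation A B := Module.finitePresentation_of_finite A B
  let g' : B →ₗ[A] A' :=
    { toFun := g, map_add' := g.map_add,
      map_smul' := fun r x => by
        rw [RingHom.id_apply, Algebra.smul_def r (g x)]
        exact hg r x }
  obtain ⟨h, s, hs⟩ := Module.FinitePresentation.exists_lift_of_isLocalizedModule S
    (Algebra.linearMap A A') g'
  refine ⟨h.toAddMonoidHom, fun r x => h.map_smul r x, s, s.2, fun x => ?_⟩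
  have := LinearMap.congr_fun hs x
  simp only [LinearMap.comp_apply, Algebra.linearMap_apply, LinearMap.smul_apply] at this
  rw [Submonoid.smul_def, Algebra.smul_def] at this
  exact this

/-- `q⁻¹`-linear maps. -/
def PLin {R : Type u} [CommRing R] (q : ℕ) (φ : R →+ R) : Prop :=
  ∀ r x : R, φ (r ^ q * x) = r * φ x

section
variable {R : Type u} [CommRing R]

theorem PLin.id : PLin 1 (AddMonoidHom.id R) := by
  intro r x; simp

theorem PLin.comp {q q' : ℕ} {φ ψ : R →+ R} (hφ : PLin q φ) (hψ : PLin q' ψ) :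
    PLin (q * q') (φ.comp ψ) := by
  intro r x
  simp only [AddMonoidHom.comp_apply]
  rw [pow_mul, hψ, hφ]

theorem PLin.premul {q : ℕ} {φ : R →+ R} (hφ : PLin q φ) (a : R) :
    PLin q (φ.comp (AddMonoidHom.mulLeft a)) := by
  intro r x
  simp only [AddMonoidHom.comp_apply, AddMonoidHom.coe_mulLeft]
  rw [mul_left_comm, hφ]

theorem PLin.postmul {q : ℕ} {φ : R →+ R} (hφ : PLin q φ) (a : R) :
    PLin q ((AddMonoidHom.mulLeft a).comp φ) := by
  intro r x
  simp only [AddMonoidHom.comp_apply, AddMonoidHom.coe_mulLeft]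
  rw [hφ, mul_left_comm]

theorem PLin.add {q : ℕ} {φ ψ : R →+ R} (hφ : PLin q φ) (hψ : PLin q ψ) :
    PLin q (φ + ψ) := by
  intro r x
  simp only [AddMonoidHom.add_apply]
  rw [hφ, hψ, mul_add]

theorem PLin.zero {q : ℕ} : PLin q (0 : R →+ R) := by
  intro r x; simp

/-- A `q⁻¹`-linear map extends to a localisation. -/
theorem PLin.exists_localize {q : ℕ} (hq : 1 ≤ q) {φ : R →+ R} (hφ : PLin q φ)
    (S : Submonoid R) (R' : Type u) [CommRing R'] [Algebra R R'] [IsLocalization S R'] :
    ∃ φ' : R' →+ R', PLin q φ' ∧ ∀ x, φ' (algebraMap R R' x) = algebraMap R R' (φ x) := by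
  obtain ⟨k, rfl⟩ : ∃ k, q = k + 1 := ⟨q - 1, by omega⟩
  have wd : ∀ (x y : R) (s t : S), IsLocalization.mk' R' x s = IsLocalization.mk' R' y t →
      IsLocalization.mk' R' (φ (x * (s : R) ^ k)) s =
        IsLocalization.mk' R' (φ (y * (t : R) ^ k)) t := by
    intro x y s t h
    rw [IsLocalization.eq] at h ⊢
    obtain ⟨c, hc⟩ := h
    refine ⟨c, ?_⟩
    rw [← mul_assoc, ← mul_assoc, ← hφ, ← hφ]
    congr 1
    have : ((c : R) * t) ^ (k + 1) * (x * (s : R) ^ k) =
        ((c : R) * (t * x)) * ((c : R) * t * s) ^ k := by ring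
    rw [this, hc]
    ring
  let F : R' → R' := fun z =>
    IsLocalization.mk' R' (φ ((IsLocalization.sec S z).1 * ((IsLocalization.sec S z).2 : R) ^ k))
      (IsLocalization.sec S z).2
  have hF : ∀ (x : R) (s : S), F (IsLocalization.mk' R' x s) =
      IsLocalization.mk' R' (φ (x * (s : R) ^ k)) s := by
    intro x s
    exact wd _ _ _ _ (IsLocalization.mk'_sec R' _)
  have hadd : ∀ a b, F (a + b) = F a + F b := by
    intro a b
    obtain ⟨⟨x, s⟩, rfl⟩ := IsLocalization.mk'_surjective S a
    obtain ⟨⟨y, t⟩, rfl⟩ := IsLocalization.mk'_surjective S b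
    simp only
    rw [← IsLocalization.mk'_add, hF, hF, hF, ← IsLocalization.mk'_add]
    congr 1
    rw [mul_comm (φ _) (t : R), mul_comm (φ _) (s : R), ← hφ, ← hφ, ← map_add]
    congr 1
    simp only [Submonoid.coe_mul]
    ring
  refine ⟨AddMonoidHom.mk' F hadd, ?_, ?_⟩
  · intro a b
    obtain ⟨⟨x, s⟩, rfl⟩ := IsLocalization.mk'_surjective S a
    obtain ⟨⟨y, t⟩, rfl⟩ := IsLocalization.mk'_surjective S b
    simp only [AddMonoidHom.mk'_apply]
    rw [← IsLocalization.mk'_pow, ← IsLocalization.mk'_mul, hF, hF, ← IsLocalization.mk'_mul,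
      IsLocalization.eq]
    refine ⟨1, ?_⟩
    simp only [Submonoid.coe_mul, OneMemClass.coe_one, one_mul, SubmonoidClass.coe_pow]
    rw [← mul_assoc _ x, ← hφ, ← hφ]
    congr 1
    ring
  · intro x
    simp only [AddMonoidHom.mk'_apply]
    rw [← IsLocalization.mk'_one (M := S), hF]
    simp [IsLocalization.mk'_one]

end

end Pool.Agent.MP_80c6d6_ag
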