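import Pool.Agent.MP_80c6d6_ag.Node

set_option autoImplicit false
set_option linter.style.haveILetI false
set_option linter.unusedSectionVars false

open Filter Topology MvPolynomial
open scoped ENNReal NNReal TensorProduct

namespace Pool.Agent.MP_80c6d6_ag

variable (p : ℕ) [Fact p.Prime]

/-- The ideal `(x y)`. -/
noncomputable abbrev nodeIdeal : Ideal (Poly p) := Ideal.span {X 0 * X 1}

/-- `𝔽_p[x,y,z]/(xy)`. -/
abbrev Node := Poly p ⧸ nodeIdeal p

/-- Evaluation at the origin. -/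
noncomputable def ev0 : Node p →+* ZMod p :=
  Ideal.Quotient.lift (nodeIdeal p) constantCoeff (by
    intro a ha
    obtain ⟨b, rfl⟩ := Ideal.mem_span_singleton'.mp ha
    simp)

/-- The origin. -/
noncomputable def origin : Ideal (Node p) := RingHom.ker (ev0 p)

instance : (origin p).IsPrime := RingHom.ker_isPrime _

/-- The local ring of `𝔽_p[x,y,z]/(xy)` at the origin. -/
abbrev LocNode := Localization.AtPrime (origin p)

instance : Nontrivial (Node p) := (ev0 p).domain_nontrivial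

instance : CharP (Node p) p :=
  charP_of_injective_algebraMap (algebraMap (ZMod p) (Node p)).injective p

instance : CharP (LocNode p) p :=
  charP_of_injective_algebraMap (algebraMap (ZMod p) (LocNode p)).injective p

section generic
variable (L : Type) [CommRing L] [Algebra (Node p) L] [IsLocalization.AtPrime L (origin p)]
  [IsLocalRing L] [IsNoetherianRing L] [CharP L p]

/-- The map from the polynomial ring. -/
noncomputable def toLoc : Poly p →+* L :=
  (algebraMap (Node p) L).comp (Ideal.Quotient.mk _)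

theorem locNode_finite : (frobenius L p).Finite :=
  frobenius_finite_localization p (frobenius_finite_of_finiteType p (Node p))
    (origin p).primeCompl L

theorem locNode_rootSplits (e N : ℕ) (hN : N < p ^ e) :
    RootSplits (p ^ e) (toLoc p L (X 2) ^ N) := by
  obtain ⟨φ, hφ, h1, hI⟩ := exists_extract p (p ^ e) N hN e rfl
  obtain ⟨φ', hφ', h'⟩ := PLin.exists_descend (Ideal.Quotient.mk (nodeIdeal p))
    Ideal.Quotient.mk_surjective hφ (by
      intro x hx
      rw [Ideal.Quotient.eq_zero_iff_mem, Ideal.mem_span_singleton] at hx ⊢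
      obtain ⟨f, rfl⟩ := hx
      exact hI f)
  obtain ⟨φ'', hφ'', h''⟩ := hφ'.exists_localize (by omega) (origin p).primeCompl L
  refine ⟨φ'', hφ'', ?_⟩
  rw [← map_pow, toLoc, RingHom.comp_apply, h'', h', h1, map_one, map_one]

theorem locNode_split : RootSplits p (1 : L) := by
  have := locNode_rootSplits p L 1 0 (by simpa using (Fact.out : p.Prime).pos)
  simpa using this

theorem locNode_pure : IsPureHom (frobenius L p) := by
  obtain ⟨φ, hφ, h1⟩ := locNode_split p L
  exact isPureHom_of_retraction _ φ (fun r x => by simpa [frobenius_def] using hφ r x) h1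

theorem toLoc_mem_nonZeroDivisors (w : Poly p) (h0 : ¬ X 0 ∣ w) (h1 : ¬ X 1 ∣ w) :
    toLoc p L w ∈ nonZeroDivisors L := by
  apply IsLocalization.nonZeroDivisors_le_comap (origin p).primeCompl L
  rw [mem_nonZeroDivisors_iff_left]
  intro f hf
  obtain ⟨f, rfl⟩ := Ideal.Quotient.mk_surjective f
  change Ideal.Quotient.mk (nodeIdeal p) w * _ = 0 at hf
  rw [← map_mul, Ideal.Quotient.eq_zero_iff_mem, Ideal.mem_span_singleton] at hf
  rw [Ideal.Quotient.eq_zero_iff_mem, Ideal.mem_span_singleton]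
  have a0 : (X 0 : Poly p) ∣ f :=
    (X_prime.dvd_or_dvd ((dvd_mul_right _ _).trans hf)).resolve_left h0
  have a1 : (X 1 : Poly p) ∣ f :=
    (X_prime.dvd_or_dvd ((dvd_mul_left _ _).trans hf)).resolve_left h1
  obtain ⟨g, rfl⟩ := a0
  have : (X 1 : Poly p) ∣ g := (X_prime.dvd_or_dvd a1).resolve_left (by simp [X_dvd_X])
  exact mul_dvd_mul_left _ this

theorem z_mem : toLoc p L (X 2) ∈ nonZeroDivisors L :=
  toLoc_mem_nonZeroDivisors p L _ (by simp [X_dvd_X]) (by simp [X_dvd_X])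

theorem xy_mem : toLoc p L (X 0) + toLoc p L (X 1) ∈ nonZeroDivisors L := by
  rw [← map_add]
  apply toLoc_mem_nonZeroDivisors
  · rw [dvd_add_right dvd_rfl]; simp [X_dvd_X]
  · rw [dvd_add_left dvd_rfl]; simp [X_dvd_X]

theorem x_mul_y : toLoc p L (X 0) * toLoc p L (X 1) = 0 := by
  rw [← map_mul, toLoc, RingHom.comp_apply,
    Ideal.Quotient.eq_zero_iff_mem.mpr (Ideal.mem_span_singleton_self _), map_zero]

theorem toLoc_X_ne_zero (i j : Fin 3) (h : (X 0 * X 1 : Poly p) = X j * X i) :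
    toLoc p L (X i) ≠ 0 := by
  intro h0
  rw [toLoc, RingHom.comp_apply, IsLocalization.map_eq_zero_iff (origin p).primeCompl] at h0
  obtain ⟨⟨s, hs⟩, h0⟩ := h0
  obtain ⟨s, rfl⟩ := Ideal.Quotient.mk_surjective s
  simp only at h0
  rw [← map_mul, Ideal.Quotient.eq_zero_iff_mem, Ideal.mem_span_singleton, h,
    mul_dvd_mul_iff_right (X_ne_zero i)] at h0
  obtain ⟨g, rfl⟩ := h0
  apply hs
  simp [origin, RingHom.mem_ker, ev0]

theorem z_mem_max : toLoc p L (X 2) ∈ IsLocalRing.maximalIdeal L := by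
  rw [toLoc, RingHom.comp_apply,
    IsLocalization.AtPrime.to_map_mem_maximal_iff L (origin p)]
  simp [origin, RingHom.mem_ker, ev0]

theorem mem_max_of_mul_eq_zero {R : Type} [CommRing R] [IsLocalRing R] {q : ℕ} (hq : 1 ≤ q)
    {φ : R →+ R} (hφ : PLin q φ) {x y : R} (hxy : x * y = 0) (hy : y ≠ 0) (r : R) :
    φ (x * r) ∈ IsLocalRing.maximalIdeal R := by
  obtain ⟨k, rfl⟩ : ∃ k, q = k + 1 := ⟨q - 1, by omega⟩
  intro hu
  apply hy
  have h : y * φ (x * r) = 0 := by
    rw [← hφ]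
    have : y ^ (k + 1) * (x * r) = (x * y) * (y ^ k * r) := by ring
    rw [this, hxy, zero_mul, map_zero]
  exact (hu.mul_left_eq_zero).mp h

theorem fpt_odd (m : ℕ) :
    fpt p (Ideal.span {toLoc p L (X 2) ^ m * (toLoc p L (X 0) + toLoc p L (X 1))}) = 0 := by
  apply fpt_eq_zero p (locNode_finite p L) _ (IsLocalRing.maximalIdeal L)
  intro e he
  obtain ⟨φ, hφ, h⟩ := splitsAt_span_singleton_iff.mp he
  have hq : 1 ≤ p ^ e := Nat.one_le_pow _ _ (Fact.out : p.Prime).pos
  apply h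
  rw [mul_add, map_add, mul_comm _ (toLoc p L (X 0)), mul_comm _ (toLoc p L (X 1))]
  refine Ideal.add_mem _ ?_ ?_
  · exact mem_max_of_mul_eq_zero hq hφ (x_mul_y p L) (toLoc_X_ne_zero p L 1 0 rfl) _
  · exact mem_max_of_mul_eq_zero hq hφ (by rw [mul_comm]; exact x_mul_y p L)
      (toLoc_X_ne_zero p L 0 1 (mul_comm _ _)) _

theorem fpt_even (m : ℕ) (hm : 1 ≤ m) :
    (m : ℝ≥0∞) * fpt p (Ideal.span {toLoc p L (X 2) ^ m}) = 1 := by
  have hp : p.Prime := Fact.out
  have hp1 : (1 : ℝ) < p := by exact_mod_cast hp.one_lt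
  have htend : Tendsto (fun e : ℕ => (p : ℝ) ^ e) atTop atTop :=
    tendsto_pow_atTop_atTop_of_one_lt hp1
  have hmpos : (0 : ℝ) < m := by exact_mod_cast hm
  apply le_antisymm
  · simp only [fpt, ENNReal.mul_iSup, iSup_le_iff]
    intro t ht
    by_contra hlt
    have h1 : (1 : ℝ≥0) < m * t := by exact_mod_cast not_le.mp hlt
    have h2 : (1 : ℝ) < m * t := by exact_mod_cast h1
    rw [isFPurePair_iff p (locNode_finite p L)] at ht
    have hev : ∀ᶠ e : ℕ in atTop, (m * t : ℝ) ≤ (m * t - 1) * (p : ℝ) ^ e :=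
      (htend.const_mul_atTop (sub_pos.mpr h2)).eventually_ge_atTop _
    obtain ⟨e, he1, he⟩ := (hev.and (ht (IsLocalRing.maximalIdeal L))).exists
    rw [Ideal.span_singleton_pow, ← pow_mul] at he
    obtain ⟨φ, hφ, h⟩ := splitsAt_span_singleton_iff.mp he
    have h3 : p ^ e ≤ m * ⌈(t : ℝ) * ((p : ℝ) ^ e - 1)⌉₊ := by
      have h4 : (t : ℝ) * ((p : ℝ) ^ e - 1) ≤ ⌈(t : ℝ) * ((p : ℝ) ^ e - 1)⌉₊ := Nat.le_ceil _
      have h5 := mul_le_mul_of_nonneg_left h4 hmpos.le
      have : (p : ℝ) ^ e ≤ m * ⌈(t : ℝ) * ((p : ℝ) ^ e - 1)⌉₊ := by nlinarith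
      exact_mod_cast this
    obtain ⟨c, hc⟩ := Nat.exists_eq_add_of_le h3
    apply h
    rw [hc, pow_add, hφ]
    exact Ideal.mul_mem_right _ _ (z_mem_max p L)
  · apply ENNReal.le_of_forall_nnreal_lt
    intro y hy
    have hy' : (y : ℝ) < 1 := by exact_mod_cast hy
    have hm0 : (m : ℝ≥0) ≠ 0 := by
      have : m ≠ 0 := by omega
      exact_mod_cast this
    have hpure : IsFPurePair p (Ideal.span {toLoc p L (X 2) ^ m}) (y / m) := by
      rw [isFPurePair_iff p (locNode_finite p L)]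
      intro P hP
      have hev : ∀ᶠ e : ℕ in atTop, (m : ℝ) ≤ (1 - y) * (p : ℝ) ^ e :=
        (htend.const_mul_atTop (sub_pos.mpr hy')).eventually_ge_atTop _
      filter_upwards [hev] with e he
      rw [Ideal.span_singleton_pow, ← pow_mul]
      refine (locNode_rootSplits p L e _ ?_).splitsAt P
      have hpe : (1 : ℝ) ≤ (p : ℝ) ^ e := one_le_pow₀ hp1.le
      have h8 : (⌈((y / m : ℝ≥0) : ℝ) * ((p : ℝ) ^ e - 1)⌉₊ : ℝ) <
          ((y / m : ℝ≥0) : ℝ) * ((p : ℝ) ^ e - 1) + 1 :=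
        Nat.ceil_lt_add_one (mul_nonneg (NNReal.coe_nonneg _) (by linarith))
      have h9 := mul_lt_mul_of_pos_left h8 hmpos
      rw [mul_add, ← mul_assoc, NNReal.coe_div, NNReal.coe_natCast, mul_div_cancel₀ _ hmpos.ne',
        mul_one] at h9
      have hy0 : (0 : ℝ) ≤ y := y.2
      have : (m : ℝ) * ⌈(y : ℝ) / m * ((p : ℝ) ^ e - 1)⌉₊ < (p : ℝ) ^ e := by nlinarith
      exact_mod_cast this
    calc (y : ℝ≥0∞) = ((m * (y / m) : ℝ≥0) : ℝ≥0∞) := by rw [mul_div_cancel₀ _ hm0]
      _ = (m : ℝ≥0∞) * ((y / m : ℝ≥0) : ℝ≥0∞) := by push_cast; rfl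
      _ ≤ _ := by gcongr; exact le_fpt hpure

theorem counterexample_aux :
      (frobenius L p).Finite ∧ IsPureHom (frobenius L p) ∧
      ∃ I : ℕ → Ideal L, IsGradedSeq I ∧
        (∀ m : ℕ, 1 ≤ m → (m : ℝ≥0∞) * fpt p (I m) = if Even m then 1 else 0) ∧
        ¬ ∃ l : ℝ≥0∞, Tendsto (fun m : ℕ => (m : ℝ≥0∞) * fpt p (I m)) atTop (𝓝 l) := by
  refine ⟨locNode_finite p L, locNode_pure p L, fun m => if Even m then Ideal.span {toLoc p L (X 2) ^ m}
      else Ideal.span {toLoc p L (X 2) ^ m * (toLoc p L (X 0) + toLoc p L (X 1))}, ⟨?_, ?_⟩, ?_⟩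
  · intro m _
    refine ⟨toLoc p L (X 2) ^ m * (toLoc p L (X 0) + toLoc p L (X 1)), ?_,
      mem_circ_of_mem_nonZeroDivisors (mul_mem (pow_mem (z_mem p L) m) (xy_mem p L))⟩
    dsimp only
    split_ifs
    · exact Ideal.mul_mem_right _ _ (Ideal.subset_span rfl)
    · exact Ideal.subset_span rfl
  · intro m n _ _
    dsimp only
    by_cases hm : Even m <;> by_cases hn : Even n <;>
      simp only [hm, hn, Nat.even_add, if_true, if_false, iff_self, iff_false, not_true,
        false_iff, Ideal.span_singleton_mul_span_singleton,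
        Ideal.span_singleton_le_span_singleton]
    · exact ⟨1, by ring⟩
    · exact ⟨1, by ring⟩
    · exact ⟨1, by ring⟩
    · exact ⟨(toLoc p L (X 0) + toLoc p L (X 1)) ^ 2, by ring⟩
  · have key : ∀ m : ℕ, 1 ≤ m → (m : ℝ≥0∞) * fpt p (if Even m then Ideal.span {toLoc p L (X 2) ^ m}
        else Ideal.span {toLoc p L (X 2) ^ m * (toLoc p L (X 0) + toLoc p L (X 1))}) =
        if Even m then 1 else 0 := by
      intro m hm
      split_ifs
      · exact fpt_even p L m hm
      · rw [fpt_odd, mul_zero]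
    refine ⟨key, not_tendsto_of_alternating _ ?_ ?_⟩
    · intro m
      have : ¬ Even (2 * m + 1) := by simp
      rw [key _ (by omega), if_neg this]
    · intro m
      have : Even (2 * m + 2) := ⟨m + 1, by ring⟩
      rw [key _ (by omega), if_pos this]

end generic

theorem counterexample :
    ∃ (R : Type) (_ : CommRing R) (_ : IsNoetherianRing R) (_ : IsLocalRing R) (_ : CharP R p),
      (frobenius R p).Finite ∧ IsPureHom (frobenius R p) ∧
      ∃ I : ℕ → Ideal R, IsGradedSeq I ∧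
        (∀ m : ℕ, 1 ≤ m → (m : ℝ≥0∞) * fpt p (I m) = if Even m then 1 else 0) ∧
        ¬ ∃ l : ℝ≥0∞, Tendsto (fun m : ℕ => (m : ℝ≥0∞) * fpt p (I m)) atTop (𝓝 l) :=
  ⟨LocNode p, inferInstance, inferInstance, inferInstance, inferInstance,
    counterexample_aux p (LocNode p)⟩

end Pool.Agent.MP_80c6d6_ag
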