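import Mathlib

set_option autoImplicit false

open Filter
open scoped ENNReal NNReal TensorProduct

namespace Pool.Agent.MP_80c6d6_ag

universe u

/-- A ring map `f : A → B` is pure: `M → B ⊗_A M`, `m ↦ 1 ⊗ m` is injective for every
`A`-module `M`. A ring of characteristic `p` is F-pure when its Frobenius map is pure. -/
def IsPureHom {A B : Type u} [CommRing A] [CommRing B] (f : A →+* B) : Prop :=
  letI : Algebra A B := f.toAlgebra
  ∀ (M : Type u) [AddCommGroup M] [Module A M],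
    Function.Injective (fun m : M => (1 : B) ⊗ₜ[A] m)

/-- The `R`-linear map `R → R^{1/q}`, `1 ↦ d^{1/q}` splits. We identify `R^{1/q}` with `R`
through `x^{1/q} ↔ x`, so that `r ∈ R` acts on it as multiplication by `r^q`. -/
def RootSplits {R : Type u} [CommRing R] (q : ℕ) (d : R) : Prop :=
  ∃ φ : R →+ R, (∀ r x : R, φ (r ^ q * x) = r * φ x) ∧ φ d = 1

/-- `R°`: the elements of `R` in no minimal prime. -/
def circ (R : Type u) [CommRing R] : Set R :=
  {x | ∀ P ∈ minimalPrimes R, x ∉ P}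

/-- The pair `(R, 𝔞^t)` is F-pure: after localising at every prime, for all large `e` some
`d ∈ 𝔞^⌈t (p^e - 1)⌉` gives a split map `R → R^{1/p^e}`, `1 ↦ d^{1/p^e}`. -/
def IsFPurePair {R : Type u} [CommRing R] (p : ℕ) (𝔞 : Ideal R) (t : ℝ≥0) : Prop :=
  ∀ (P : Ideal R) [P.IsPrime], ∀ᶠ e : ℕ in atTop,
    ∃ d ∈ (𝔞.map (algebraMap R (Localization.AtPrime P))) ^ ⌈(t : ℝ) * ((p : ℝ) ^ e - 1)⌉₊,
      RootSplits (p ^ e) d

/-- The F-pure threshold, in `[0, ∞]`. -/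
noncomputable def fpt {R : Type u} [CommRing R] (p : ℕ) (𝔞 : Ideal R) : ℝ≥0∞ :=
  ⨆ (t : ℝ≥0) (_ : IsFPurePair p 𝔞 t), (t : ℝ≥0∞)

/-- A graded sequence of ideals `(I m)_{m ≥ 1}`, each meeting `R°` (the term `I 0` is unused). -/
def IsGradedSeq {R : Type u} [CommRing R] (I : ℕ → Ideal R) : Prop :=
  (∀ m, 1 ≤ m → ∃ x ∈ I m, x ∈ circ R) ∧ ∀ m n, 1 ≤ m → 1 ≤ n → I m * I n ≤ I (m + n)

/-- Strong F-regularity (Hochster and Huneke): for every `c ∈ R°` some map
`R → R^{1/p^e}`, `1 ↦ c^{1/p^e}` splits. -/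
def IsStronglyFRegular (p : ℕ) (R : Type u) [CommRing R] : Prop :=
  ∀ c ∈ circ R, ∃ e : ℕ, RootSplits (p ^ e) c

end Pool.Agent.MP_80c6d6_ag
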