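import Pool.Agent.MP_80c6d6_ag.Basic

set_option autoImplicit false
set_option linter.style.haveILetI false

open Filter Topology
open scoped ENNReal NNReal TensorProduct

namespace Pool.Agent.MP_80c6d6_ag

universe u

variable {R : Type u} [CommRing R]

/-- Some `q⁻¹`-linear map sends an element of `J` outside `P`. -/
def SplitsAt (P : Ideal R) (q : ℕ) (J : Ideal R) : Prop :=
  ∃ φ : R →+ R, PLin q φ ∧ ∃ d ∈ J, φ d ∉ P

theorem SplitsAt.mono {P : Ideal R} {q : ℕ} {J J' : Ideal R} (h : SplitsAt P q J) (hJ : J ≤ J') :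
    SplitsAt P q J' := by
  obtain ⟨φ, hφ, d, hd, hP⟩ := h
  exact ⟨φ, hφ, d, hJ hd, hP⟩

theorem SplitsAt.comp {P : Ideal R} [hP : P.IsPrime] {q q' : ℕ} (hq : 1 ≤ q) {J J' : Ideal R}
    (h : SplitsAt P q J) (h' : SplitsAt P q' J') : SplitsAt P (q * q') (J ^ q' * J') := by
  obtain ⟨φ, hφ, d, hd, hdP⟩ := h
  obtain ⟨ψ, hψ, d', hd', hdP'⟩ := h'
  obtain ⟨k, rfl⟩ : ∃ k, q = k + 1 := ⟨q - 1, by omega⟩
  refine ⟨φ.comp ψ, hφ.comp hψ, (d * ψ d' ^ k) ^ q' * d',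
    Ideal.mul_mem_mul (Ideal.pow_mem_pow (J.mul_mem_right _ hd) _) hd', ?_⟩
  simp only [AddMonoidHom.comp_apply]
  rw [hψ]
  have : d * ψ d' ^ k * ψ d' = ψ d' ^ (k + 1) * d := by ring
  rw [this, hφ]
  intro hmem
  rcases hP.mem_or_mem hmem with h | h
  · exact hdP' h
  · exact hdP h

theorem splitsAt_one (P : Ideal R) [hP : P.IsPrime] : SplitsAt P 1 ⊤ :=
  ⟨AddMonoidHom.id R, PLin.id, 1, trivial, fun h => hP.ne_top ((Ideal.eq_top_iff_one _).mpr h)⟩

theorem SplitsAt.pow_top {P : Ideal R} [hP : P.IsPrime] {q : ℕ} (hq : 1 ≤ q)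
    (h : SplitsAt P q ⊤) (r : ℕ) : SplitsAt P (q ^ r) ⊤ := by
  induction r with
  | zero => simpa using splitsAt_one P
  | succ r ih =>
    rw [pow_succ]
    exact (ih.comp (Nat.one_le_pow _ _ hq) h).mono le_top

theorem SplitsAt.iterate {P : Ideal R} [hP : P.IsPrime] {Q : ℕ} (hQ : 1 ≤ Q) {J : Ideal R}
    (h : SplitsAt P Q J) (n : ℕ) :
    ∃ g : ℕ, Q ^ n ≤ g * Q + 1 ∧ SplitsAt P (Q ^ n) (J ^ g) := by
  induction n with
  | zero => exact ⟨0, by simp, by simpa using splitsAt_one P⟩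
  | succ n ih =>
    obtain ⟨g, hg, hs⟩ := ih
    refine ⟨g * Q + 1, ?_, ?_⟩
    · rw [pow_succ]
      have := Nat.mul_le_mul_right Q hg
      omega
    · have := hs.comp (Nat.one_le_pow _ _ hQ) h
      rw [pow_succ, pow_succ, pow_mul]
      exact this

theorem iterateFrobenius_finite (p : ℕ) [Fact p.Prime] [CharP R p]
    (hfin : (frobenius R p).Finite) (e : ℕ) : (iterateFrobenius R p e).Finite := by
  induction e with
  | zero => rw [iterateFrobenius_zero]; exact RingHom.Finite.id R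
  | succ e ih =>
    rw [iterateFrobenius_add, iterateFrobenius_one]
    exact ih.comp hfin

theorem local_iff_splitsAt (p : ℕ) [Fact p.Prime] [CharP R p] [IsNoetherianRing R]
    (hfin : (frobenius R p).Finite) (P : Ideal R) [hP : P.IsPrime] (e : ℕ) (J : Ideal R) :
    (∃ d ∈ J.map (algebraMap R (Localization.AtPrime P)), RootSplits (p ^ e) d) ↔
      SplitsAt P (p ^ e) J := by
  have hq : 1 ≤ p ^ e := Nat.one_le_pow _ _ (Fact.out : p.Prime).pos
  constructor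
  · rintro ⟨d, hd, ψ, hψ, h1⟩
    obtain ⟨⟨⟨d₀, hd₀⟩, s⟩, hs⟩ :=
      (IsLocalization.mem_map_algebraMap_iff P.primeCompl (Localization.AtPrime P)).mp hd
    simp only at hs
    obtain ⟨φ, hφ, s', hs', hφ'⟩ := exists_lift_colinear P.primeCompl
      (A' := Localization.AtPrime P) (iterateFrobenius R p e) (iterateFrobenius_finite p hfin e)
      (ψ.comp (algebraMap R (Localization.AtPrime P)).toAddMonoidHom) (by
        intro r x
        simp only [AddMonoidHom.comp_apply, RingHom.toAddMonoidHom_eq_coe,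
          AddMonoidHom.coe_coe, iterateFrobenius_def, map_mul, map_pow]
        exact hψ _ _)
    obtain ⟨k, hk⟩ : ∃ k, p ^ e = k + 1 := ⟨p ^ e - 1, by omega⟩
    refine ⟨φ, fun r x => by simpa [iterateFrobenius_def] using hφ r x,
      d₀ * (s : R) ^ k, J.mul_mem_right _ hd₀, ?_⟩
    have h2 := hφ' (d₀ * (s : R) ^ k)
    simp only [AddMonoidHom.comp_apply, RingHom.toAddMonoidHom_eq_coe,
      AddMonoidHom.coe_coe, map_mul, map_pow] at h2
    have h3 : algebraMap R (Localization.AtPrime P) d₀ *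
        algebraMap R (Localization.AtPrime P) s ^ k =
        algebraMap R (Localization.AtPrime P) s ^ (p ^ e) * d := by
      rw [← hs, hk]; ring
    rw [h3, hψ, h1, mul_one, ← map_mul] at h2
    have hu : IsUnit (algebraMap R (Localization.AtPrime P) (φ (d₀ * (s : R) ^ k))) := by
      rw [h2]
      exact IsLocalization.map_units (Localization.AtPrime P)
        (⟨s' * s, P.primeCompl.mul_mem hs' s.2⟩ : P.primeCompl)
    exact (IsLocalization.AtPrime.isUnit_to_map_iff (Localization.AtPrime P) P _).mp hu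
  · rintro ⟨φ, hφ, d, hd, hdP⟩
    obtain ⟨φ', hφ', h'⟩ := hφ.exists_localize hq P.primeCompl (Localization.AtPrime P)
    obtain ⟨v, hv⟩ := ((IsLocalization.AtPrime.isUnit_to_map_iff (Localization.AtPrime P) P
      (φ d)).mpr hdP).exists_left_inv
    refine ⟨algebraMap R _ d, Ideal.mem_map_of_mem _ hd,
      (AddMonoidHom.mulLeft v).comp φ', hφ'.postmul v, ?_⟩
    simp only [AddMonoidHom.comp_apply, AddMonoidHom.coe_mulLeft]
    rw [h', hv]

theorem isFPurePair_iff (p : ℕ) [Fact p.Prime] [CharP R p] [IsNoetherianRing R]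
    (hfin : (frobenius R p).Finite) (𝔞 : Ideal R) (t : ℝ≥0) :
    IsFPurePair p 𝔞 t ↔ ∀ (P : Ideal R) [P.IsPrime], ∀ᶠ e : ℕ in atTop,
      SplitsAt P (p ^ e) (𝔞 ^ ⌈(t : ℝ) * ((p : ℝ) ^ e - 1)⌉₊) := by
  unfold IsFPurePair
  refine forall_congr' fun P => forall_congr' fun hP => eventually_congr (.of_forall fun e => ?_)
  rw [← Ideal.map_pow, local_iff_splitsAt p hfin]

/-- Quasi-compactness of the spectrum. -/
theorem exists_uniform (S : ℕ → Set R) (hS : Monotone S)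
    (h : ∀ (P : Ideal R) [P.IsPrime], ∃ n, ∃ u ∈ S n, u ∉ P) :
    ∃ n, ∀ (P : Ideal R) [P.IsPrime], ∃ u ∈ S n, u ∉ P := by
  let K : ℕ →o Ideal R := ⟨fun n => Ideal.span (S n), fun a b hab => Ideal.span_mono (hS hab)⟩
  have htop : (⨆ n, K n) = ⊤ := by
    by_contra hne
    obtain ⟨M, hM, hle⟩ := Ideal.exists_le_maximal _ hne
    obtain ⟨n, u, hu, huM⟩ := h M
    exact huM (hle (le_iSup K n (Ideal.subset_span hu)))
  have h1 : (1 : R) ∈ ⨆ n, K n := by rw [htop]; trivial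
  obtain ⟨n, hn⟩ := (Submodule.mem_iSup_of_chain K 1).mp h1
  refine ⟨n, fun P hP => ?_⟩
  by_contra hcon
  push Not at hcon
  have : K n ≤ P := Ideal.span_le.mpr hcon
  exact hP.ne_top ((Ideal.eq_top_iff_one _).mpr (this hn))

theorem one_mem_circ : (1 : R) ∈ circ R := by
  intro P hP h
  exact hP.1.1.ne_top ((Ideal.eq_top_iff_one _).mpr h)

theorem mul_mem_circ {a b : R} (ha : a ∈ circ R) (hb : b ∈ circ R) : a * b ∈ circ R := by
  intro P hP h
  rcases hP.1.1.mem_or_mem h with h | h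
  · exact ha P hP h
  · exact hb P hP h

theorem RootSplits.splitsAt {q : ℕ} {c : R} (h : RootSplits q c) (P : Ideal R) [hP : P.IsPrime] :
    SplitsAt P q (Ideal.span {c}) := by
  obtain ⟨φ, hφ, h1⟩ := h
  exact ⟨φ, hφ, c, Ideal.subset_span rfl,
    fun h => hP.ne_top ((Ideal.eq_top_iff_one _).mpr (h1 ▸ h))⟩

/-- The perturbation lemma. -/
theorem perturb (p : ℕ) [Fact p.Prime] [CharP R p] [IsNoetherianRing R]
    (hfin : (frobenius R p).Finite) (hsplit : RootSplits p (1 : R))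
    (𝔞 : Ideal R) (b : R) (e₂ : ℕ) (hb : RootSplits (p ^ e₂) b) (s s' : ℝ≥0) (hss : s < s')
    (h : IsFPurePair p 𝔞 s') :
    ∃ k₀ : ℕ, 1 ≤ k₀ ∧ ∀ k, k₀ ≤ k → ∀ J : Ideal R, 𝔞 ^ k * Ideal.span {b} ≤ J →
      IsFPurePair p J (s / k) := by
  have hp : p.Prime := Fact.out
  have hp1 : (1 : ℝ) < p := by exact_mod_cast hp.one_lt
  rw [isFPurePair_iff p hfin] at h
  set s'' : ℝ := ((s : ℝ) + s') / 2 with hs''
  have hss' : (s : ℝ) < s' := by exact_mod_cast hss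
  have h1 : (s : ℝ) < s'' := by rw [hs'']; linarith
  have h2 : s'' < s' := by rw [hs'']; linarith
  have hs0 : (0 : ℝ) ≤ s := s.2
  have htend : Tendsto (fun e : ℕ => (p : ℝ) ^ e) atTop atTop := tendsto_pow_atTop_atTop_of_one_lt hp1
  have hev : ∀ᶠ e : ℕ in atTop, 1 ≤ e ∧ (s' : ℝ) ≤ (s' - s'') * (p : ℝ) ^ e :=
    (eventually_ge_atTop 1).and
      ((htend.const_mul_atTop (sub_pos.mpr h2)).eventually_ge_atTop _)
  let S : ℕ → Set R := fun n => {u | ∃ e ≤ n, (1 ≤ e ∧ (s' : ℝ) ≤ (s' - s'') * (p : ℝ) ^ e) ∧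
    ∃ φ : R →+ R, PLin (p ^ e) φ ∧ ∃ d ∈ 𝔞 ^ ⌈(s' : ℝ) * ((p : ℝ) ^ e - 1)⌉₊, φ d = u}
  obtain ⟨n, hn⟩ := exists_uniform S
    (fun a b hab u ⟨e, he, hu⟩ => ⟨e, he.trans hab, hu⟩) (by
      intro P hP
      obtain ⟨e, he, φ, hφ, d, hd, hdP⟩ := (hev.and (h P)).exists
      exact ⟨e, φ d, ⟨e, le_rfl, he, φ, hφ, d, hd, rfl⟩, hdP⟩)
  refine ⟨⌈(s' : ℝ) * ((p : ℝ) ^ n - 1)⌉₊ * p ^ e₂ + 1, by omega, fun k hk J hJ => ?_⟩
  rw [isFPurePair_iff p hfin]
  intro P hP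
  obtain ⟨u, ⟨e₁, he₁n, ⟨he₁, he₁'⟩, φ, hφ, d, hd, rfl⟩, huP⟩ := hn P
  have hk1 : 1 ≤ k := by omega
  have hkpos : (0 : ℝ) < k := by exact_mod_cast hk1
  set A : ℕ := ⌈(s' : ℝ) * ((p : ℝ) ^ e₁ - 1)⌉₊ * p ^ e₂ with hA
  have hAk : A ≤ k := by
    have : ⌈(s' : ℝ) * ((p : ℝ) ^ e₁ - 1)⌉₊ ≤ ⌈(s' : ℝ) * ((p : ℝ) ^ n - 1)⌉₊ := by
      apply Nat.ceil_mono
      have : (p : ℝ) ^ e₁ ≤ (p : ℝ) ^ n := pow_le_pow_right₀ hp1.le he₁n
      have h0 : (0 : ℝ) ≤ s' := s'.2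
      gcongr
    have := Nat.mul_le_mul_right (p ^ e₂) this
    omega
  set E := e₁ + e₂ with hE
  have hE1 : 0 < E := by omega
  have hbase : SplitsAt P (p ^ E) (𝔞 ^ A * Ideal.span {b}) := by
    have := SplitsAt.comp (Nat.one_le_pow e₁ p hp.pos) ⟨φ, hφ, d, hd, huP⟩ (hb.splitsAt P)
    rw [← pow_add, ← pow_mul] at this
    exact this
  have hAQ : s'' * (p : ℝ) ^ E ≤ A := by
    have h3 : (s' : ℝ) * ((p : ℝ) ^ e₁ - 1) ≤ ⌈(s' : ℝ) * ((p : ℝ) ^ e₁ - 1)⌉₊ := Nat.le_ceil _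
    have h4 : s'' * (p : ℝ) ^ e₁ ≤ ⌈(s' : ℝ) * ((p : ℝ) ^ e₁ - 1)⌉₊ := by nlinarith
    rw [hA, hE, pow_add, ← mul_assoc]
    push_cast
    gcongr
  have hsp : SplitsAt P p ⊤ := (hsplit.splitsAt P).mono le_top
  have hev2 : ∀ᶠ e : ℕ in atTop, s'' * (p : ℝ) ^ E + k ≤ (s'' - s) * (p : ℝ) ^ e :=
    (htend.const_mul_atTop (sub_pos.mpr h1)).eventually_ge_atTop _
  filter_upwards [hev2] with e he
  obtain ⟨g, hg, hgs⟩ := hbase.iterate (Nat.one_le_pow _ _ hp.pos) (e / E)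
  have hr := hgs.comp (Nat.one_le_pow _ _ (Nat.one_le_pow _ _ hp.pos)) (hsp.pow_top hp.pos (e % E))
  have hexp : (p ^ E) ^ (e / E) * p ^ (e % E) = p ^ e := by
    rw [← pow_mul, ← pow_add, Nat.div_add_mod]
  rw [hexp, ← pow_mul, Ideal.mul_top] at hr
  set G := g * p ^ (e % E) with hG
  set N := ⌈((s / k : ℝ≥0) : ℝ) * ((p : ℝ) ^ e - 1)⌉₊ with hN
  have hGQ : p ^ e ≤ G * p ^ E + p ^ E := by
    have h5 := Nat.mul_le_mul_right (p ^ (e % E)) hg
    rw [hexp] at h5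
    have h6 : p ^ (e % E) ≤ p ^ E := Nat.pow_le_pow_right hp.pos (Nat.mod_lt _ hE1).le
    have h7 : (g * p ^ E + 1) * p ^ (e % E) = G * p ^ E + p ^ (e % E) := by rw [hG]; ring
    omega
  have hpe : (1 : ℝ) ≤ (p : ℝ) ^ e := one_le_pow₀ hp1.le
  have hkN : k * N ≤ A * G := by
    have h8 : (N : ℝ) < ((s / k : ℝ≥0) : ℝ) * ((p : ℝ) ^ e - 1) + 1 :=
      Nat.ceil_lt_add_one (mul_nonneg (NNReal.coe_nonneg _) (by linarith))
    have h9 : (k : ℝ) * N ≤ s * ((p : ℝ) ^ e - 1) + k := by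
      have := mul_le_mul_of_nonneg_left h8.le hkpos.le
      push_cast at this
      rw [mul_add, ← mul_assoc, mul_div_cancel₀ _ hkpos.ne', mul_one] at this
      exact this
    have h10 : (p : ℝ) ^ e ≤ G * (p : ℝ) ^ E + (p : ℝ) ^ E := by exact_mod_cast hGQ
    have hG0 : (0 : ℝ) ≤ G := Nat.cast_nonneg _
    have hs''0 : 0 ≤ s'' := by linarith
    have h11 : s'' * (p : ℝ) ^ E * G ≤ A * G := mul_le_mul_of_nonneg_right hAQ hG0
    have h12 : s'' * (p : ℝ) ^ e ≤ s'' * (G * (p : ℝ) ^ E + (p : ℝ) ^ E) :=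
      mul_le_mul_of_nonneg_left h10 hs''0
    have : (k : ℝ) * N ≤ A * G := by nlinarith
    exact_mod_cast this
  have hNG : N ≤ G := by
    have := hkN.trans (Nat.mul_le_mul_right G hAk)
    exact Nat.le_of_mul_le_mul_left this hk1
  refine hr.mono (le_trans ?_ (Ideal.pow_right_mono hJ N))
  rw [mul_pow, mul_pow, ← pow_mul, ← pow_mul]
  exact Ideal.mul_mono (Ideal.pow_le_pow_right hkN) (Ideal.pow_le_pow_right hNG)

theorem IsGradedSeq.pow_mul_le {I : ℕ → Ideal R} (hI : IsGradedSeq I) {m r : ℕ} (hm : 1 ≤ m)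
    (hr : 1 ≤ r) (k : ℕ) : I m ^ k * I r ≤ I (k * m + r) := by
  induction k with
  | zero => simp
  | succ k ih =>
    rw [pow_succ', mul_assoc]
    refine (Ideal.mul_mono_right ih).trans ((hI.2 _ _ hm (by omega)).trans (le_of_eq ?_))
    congr 1
    ring

theorem IsGradedSeq.exists_common {I : ℕ → Ideal R} (hI : IsGradedSeq I) (m : ℕ) :
    ∃ b ∈ circ R, ∀ r, 1 ≤ r → r ≤ m → b ∈ I r := by
  induction m with
  | zero => exact ⟨1, one_mem_circ, fun r h1 h2 => by omega⟩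
  | succ m ih =>
    obtain ⟨b, hb, hb'⟩ := ih
    obtain ⟨x, hx, hx'⟩ := hI.1 (m + 1) (by omega)
    refine ⟨b * x, mul_mem_circ hb hx', fun r h1 h2 => ?_⟩
    rcases Nat.lt_or_ge r (m + 1) with h | h
    · exact Ideal.mul_mem_right _ _ (hb' r h1 (by omega))
    · obtain rfl : r = m + 1 := by omega
      exact Ideal.mul_mem_left _ _ hx

theorem le_fpt {p : ℕ} {𝔞 : Ideal R} {t : ℝ≥0} (h : IsFPurePair p 𝔞 t) :
    (t : ℝ≥0∞) ≤ fpt p 𝔞 :=
  le_iSup₂_of_le (f := fun (t : ℝ≥0) (_ : IsFPurePair p 𝔞 t) => (t : ℝ≥0∞)) t h le_rfl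

theorem tendsto_of_stronglyFRegular (p : ℕ) [Fact p.Prime] [CharP R p] [IsNoetherianRing R]
    (hfin : (frobenius R p).Finite) (hsplit : RootSplits p (1 : R))
    (hreg : IsStronglyFRegular p R) (I : ℕ → Ideal R) (hI : IsGradedSeq I) :
    Tendsto (fun m : ℕ => (m : ℝ≥0∞) * fpt p (I m)) atTop
      (𝓝 (⨆ (m : ℕ) (_ : 1 ≤ m), (m : ℝ≥0∞) * fpt p (I m))) := by
  rw [tendsto_order]
  constructor
  · intro y hy
    simp only [lt_iSup_iff] at hy
    obtain ⟨m₀, hm₀, hy⟩ := hy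
    simp only [fpt, ENNReal.mul_iSup, lt_iSup_iff] at hy
    obtain ⟨t, ht, hy⟩ := hy
    have hytop : y ≠ ⊤ := ne_top_of_lt hy
    lift y to ℝ≥0 using hytop
    have hy' : y < m₀ * t := by exact_mod_cast hy
    have hm₀pos : (0 : ℝ≥0) < m₀ := by exact_mod_cast hm₀
    obtain ⟨s, hs1, hs2⟩ := exists_between ((div_lt_iff₀' hm₀pos).mpr hy')
    rw [div_lt_iff₀' hm₀pos] at hs1
    obtain ⟨b, hb, hb'⟩ := hI.exists_common m₀
    obtain ⟨e₂, he₂⟩ := hreg b hb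
    obtain ⟨k₀, hk₀, hk⟩ := perturb p hfin hsplit (I m₀) b e₂ he₂ s t hs2 ht
    filter_upwards [eventually_ge_atTop (k₀ * m₀ + 1)] with m hm
    set k := (m - 1) / m₀ with hkdef
    have hkk : k₀ ≤ k := (Nat.le_div_iff_mul_le hm₀).mpr (by omega)
    have hdm := Nat.div_add_mod (m - 1) m₀
    have hlt := Nat.mod_lt (m - 1) hm₀
    have hm' : m = k * m₀ + ((m - 1) % m₀ + 1) := by
      rw [hkdef, mul_comm]; omega
    have hle : I m₀ ^ k * Ideal.span {b} ≤ I m := by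
      rw [hm']
      refine le_trans (Ideal.mul_mono_right ?_) (hI.pow_mul_le hm₀ (by omega) k)
      rw [Ideal.span_singleton_le_iff_mem]
      exact hb' _ (by omega) (by omega)
    have h1 := le_fpt (hk k hkk (I m) hle)
    have hkpos : (0 : ℝ≥0) < k := by
      have : 0 < k := by omega
      exact_mod_cast this
    have h2 : y < m * (s / k) := by
      refine hs1.trans_le ?_
      rw [← mul_div_assoc, le_div_iff₀ hkpos]
      have : k * m₀ ≤ m := by omega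
      have h3 : (k : ℝ≥0) * m₀ ≤ m := by exact_mod_cast this
      calc (m₀ : ℝ≥0) * s * k = (k * m₀) * s := by ring
        _ ≤ m * s := by gcongr
    calc (y : ℝ≥0∞) < ((m * (s / k) : ℝ≥0) : ℝ≥0∞) := by exact_mod_cast h2
      _ = (m : ℝ≥0∞) * ((s / k : ℝ≥0) : ℝ≥0∞) := by push_cast; rfl
      _ ≤ _ := by gcongr
  · intro y hy
    filter_upwards [eventually_ge_atTop 1] with m hm
    exact lt_of_le_of_lt (le_iSup₂_of_le
      (f := fun (m : ℕ) (_ : 1 ≤ m) => (m : ℝ≥0∞) * fpt p (I m)) m hm le_rfl) hy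

theorem fpt_eq_zero (p : ℕ) [Fact p.Prime] [CharP R p] [IsNoetherianRing R]
    (hfin : (frobenius R p).Finite) (J : Ideal R) (P : Ideal R) [P.IsPrime]
    (h : ∀ e, ¬ SplitsAt P (p ^ e) J) : fpt p J = 0 := by
  have hp : p.Prime := Fact.out
  have hp1 : (1 : ℝ) < p := by exact_mod_cast hp.one_lt
  simp only [fpt, ENNReal.iSup_eq_zero]
  intro t ht
  by_contra hne
  have htpos : (0 : ℝ) < t := by
    have : t ≠ 0 := by simpa using hne
    positivity
  rw [isFPurePair_iff p hfin] at ht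
  obtain ⟨e, he1, he⟩ := ((eventually_ge_atTop 1).and (ht P)).exists
  apply h e
  refine he.mono (Ideal.pow_le_self ?_)
  have : (1 : ℝ) < (p : ℝ) ^ e := one_lt_pow₀ hp1 (by omega)
  exact (Nat.ceil_pos.mpr (mul_pos htpos (by linarith))).ne'

theorem not_tendsto_of_alternating (a : ℕ → ℝ≥0∞) (h0 : ∀ m, a (2 * m + 1) = 0)
    (h1 : ∀ m, 1 ≤ a (2 * m + 2)) : ¬ ∃ l, Tendsto a atTop (𝓝 l) := by
  rintro ⟨l, hl⟩
  have t1 : Tendsto (fun m : ℕ => 2 * m + 1) atTop atTop :=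
    tendsto_atTop_mono (fun m => by simp only [id]; omega) tendsto_id
  have t2 : Tendsto (fun m : ℕ => 2 * m + 2) atTop atTop :=
    tendsto_atTop_mono (fun m => by simp only [id]; omega) tendsto_id
  have l0 : l ≤ 0 := le_of_tendsto' (hl.comp t1) fun m => (h0 m).le
  have l1 : 1 ≤ l := ge_of_tendsto' (hl.comp t2) h1
  exact absurd (l1.trans l0) (by simp)

theorem rootSplits_of_forall_splitsAt {q : ℕ} {c : R}
    (h : ∀ (P : Ideal R) [P.IsPrime], ∃ φ : R →+ R, PLin q φ ∧ φ c ∉ P) : RootSplits q c := by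
  let T : Ideal R :=
    { carrier := {u | ∃ φ : R →+ R, PLin q φ ∧ φ c = u}
      add_mem' := by
        rintro _ _ ⟨φ, hφ, rfl⟩ ⟨ψ, hψ, rfl⟩
        exact ⟨φ + ψ, hφ.add hψ, rfl⟩
      zero_mem' := ⟨0, PLin.zero, rfl⟩
      smul_mem' := by
        rintro a _ ⟨φ, hφ, rfl⟩
        exact ⟨_, hφ.postmul a, rfl⟩ }
  have : T = ⊤ := by
    by_contra hne
    obtain ⟨M, hM, hle⟩ := Ideal.exists_le_maximal _ hne
    obtain ⟨φ, hφ, hM'⟩ := h M
    exact hM' (hle ⟨φ, hφ, rfl⟩)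
  obtain ⟨φ, hφ, h1⟩ : (1 : R) ∈ T := by rw [this]; trivial
  exact ⟨φ, hφ, h1⟩

theorem splitsAt_span_singleton_iff {P : Ideal R} {q : ℕ} {c : R} :
    SplitsAt P q (Ideal.span {c}) ↔ ∃ φ : R →+ R, PLin q φ ∧ φ c ∉ P := by
  constructor
  · rintro ⟨φ, hφ, d, hd, hdP⟩
    obtain ⟨a, rfl⟩ := Ideal.mem_span_singleton'.mp hd
    exact ⟨_, hφ.premul a, hdP⟩
  · rintro ⟨φ, hφ, h⟩
    exact ⟨φ, hφ, c, Ideal.subset_span rfl, h⟩

/-- If `c` splits locally at every prime at some level, it splits globally at some level. -/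
theorem exists_rootSplits_of_forall (p : ℕ) [Fact p.Prime] (hsplit : RootSplits p (1 : R)) (c : R)
    (h : ∀ (P : Ideal R) [P.IsPrime], ∃ e, SplitsAt P (p ^ e) (Ideal.span {c})) :
    ∃ e, RootSplits (p ^ e) c := by
  have hp : p.Prime := Fact.out
  let S : ℕ → Set R := fun n => {u | ∃ e ≤ n, ∃ φ : R →+ R, PLin (p ^ e) φ ∧ φ c = u}
  obtain ⟨n, hn⟩ := exists_uniform S
    (fun a b hab u ⟨e, he, hu⟩ => ⟨e, he.trans hab, hu⟩) (by
      intro P hP
      obtain ⟨e, he⟩ := h P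
      obtain ⟨φ, hφ, hc⟩ := splitsAt_span_singleton_iff.mp he
      exact ⟨e, φ c, ⟨e, le_rfl, φ, hφ, rfl⟩, hc⟩)
  refine ⟨n, rootSplits_of_forall_splitsAt fun P hP => ?_⟩
  obtain ⟨u, ⟨e, hen, φ, hφ, rfl⟩, huP⟩ := hn P
  have h1 : SplitsAt P (p ^ e) (Ideal.span {c}) := splitsAt_span_singleton_iff.mpr ⟨φ, hφ, huP⟩
  have hsp : SplitsAt P p ⊤ := (hsplit.splitsAt P).mono le_top
  have h2 := h1.comp (Nat.one_le_pow _ _ hp.pos) (hsp.pow_top hp.pos (n - e))
  rw [← pow_add, Nat.add_sub_cancel' hen, Ideal.mul_top] at h2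
  exact splitsAt_span_singleton_iff.mp
    (h2.mono (Ideal.pow_le_self (pow_ne_zero _ hp.ne_zero)))

theorem fpt_top (p : ℕ) [Fact p.Prime] [CharP R p] [IsNoetherianRing R]
    (hfin : (frobenius R p).Finite) (hsplit : RootSplits p (1 : R)) :
    fpt p (⊤ : Ideal R) = ⊤ := by
  have hp : p.Prime := Fact.out
  apply ENNReal.eq_top_of_forall_nnreal_le
  intro t
  apply le_fpt
  rw [isFPurePair_iff p hfin]
  intro P hP
  refine .of_forall fun e => ?_
  rw [Ideal.top_pow]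
  exact ((hsplit.splitsAt P).mono le_top).pow_top hp.pos e

theorem exists_not_tendsto (p : ℕ) [Fact p.Prime] [CharP R p] [IsNoetherianRing R]
    (hfin : (frobenius R p).Finite) (hsplit : RootSplits p (1 : R))
    (hreg : ¬ IsStronglyFRegular p R) :
    ∃ I : ℕ → Ideal R, IsGradedSeq I ∧
      ¬ ∃ l, Tendsto (fun m : ℕ => (m : ℝ≥0∞) * fpt p (I m)) atTop (𝓝 l) := by
  unfold IsStronglyFRegular at hreg
  push Not at hreg
  obtain ⟨c, hc, hc'⟩ := hreg
  have : ∃ (P : Ideal R) (_ : P.IsPrime), ∀ e, ¬ SplitsAt P (p ^ e) (Ideal.span {c}) := by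
    by_contra hcon
    push Not at hcon
    obtain ⟨e, he⟩ := exists_rootSplits_of_forall p hsplit c (fun P hP => hcon P hP)
    exact hc' e he
  obtain ⟨P, hP, hP'⟩ := this
  refine ⟨fun m => if Even m then ⊤ else Ideal.span {c}, ⟨?_, ?_⟩, ?_⟩
  · intro m _
    refine ⟨c, ?_, hc⟩
    dsimp only
    split_ifs
    · trivial
    · exact Ideal.subset_span rfl
  · intro m n _ _
    dsimp only
    by_cases hm : Even m <;> by_cases hn : Even n <;> simp [hm, hn, Nat.even_add]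
  · apply not_tendsto_of_alternating
    · intro m
      have : ¬ Even (2 * m + 1) := by simp
      simp only [this, if_false]
      rw [fpt_eq_zero p hfin _ P hP', mul_zero]
    · intro m
      have : Even (2 * m + 2) := ⟨m + 1, by ring⟩
      simp only [this, if_true]
      rw [fpt_top p hfin hsplit, ENNReal.mul_top (by simp)]
      exact le_top

theorem rootSplits_one_of_pure (p : ℕ) [Fact p.Prime] [CharP R p] [IsNoetherianRing R]
    (hfin : (frobenius R p).Finite) (hpure : IsPureHom (frobenius R p)) :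
    RootSplits p (1 : R) := by
  obtain ⟨φ, hφ, h1⟩ := exists_retraction_of_pure _ hfin hpure
  exact ⟨φ, fun r x => by simpa [frobenius_def] using hφ r x, h1⟩

theorem characterization (p : ℕ) [Fact p.Prime] [CharP R p] [IsNoetherianRing R]
    (hfin : (frobenius R p).Finite) (hpure : IsPureHom (frobenius R p)) :
    (∀ I : ℕ → Ideal R, IsGradedSeq I →
      ∃ l, Tendsto (fun m : ℕ => (m : ℝ≥0∞) * fpt p (I m)) atTop (𝓝 l)) ↔
      IsStronglyFRegular p R := by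
  have hsplit := rootSplits_one_of_pure p hfin hpure
  constructor
  · intro h
    by_contra hreg
    obtain ⟨I, hI, hI'⟩ := exists_not_tendsto p hfin hsplit hreg
    exact hI' (h I hI)
  · intro hreg I hI
    exact ⟨_, tendsto_of_stronglyFRegular p hfin hsplit hreg I hI⟩

end Pool.Agent.MP_80c6d6_ag
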