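import Pool.Agent.MP_80c6d6_ag.Main

set_option autoImplicit false
set_option linter.style.haveILetI false

open Filter Topology MvPolynomial
open scoped ENNReal NNReal TensorProduct

namespace Pool.Agent.MP_80c6d6_ag

universe u

theorem PLin.exists_descend {A B : Type u} [CommRing A] [CommRing B] (π : A →+* B)
    (hπ : Function.Surjective π) {q : ℕ} {φ : A →+ A} (hφ : PLin q φ)
    (hker : ∀ x, π x = 0 → π (φ x) = 0) :
    ∃ φ' : B →+ B, PLin q φ' ∧ ∀ x, φ' (π x) = π (φ x) := by
  let F : B → B := fun b => π (φ (Function.surjInv hπ b))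
  have hF : ∀ x, F (π x) = π (φ x) := by
    intro x
    have : π (Function.surjInv hπ (π x) - x) = 0 := by
      rw [map_sub, Function.surjInv_eq hπ, sub_self]
    have h2 := hker _ this
    rw [map_sub, map_sub, sub_eq_zero] at h2
    exact h2
  have hadd : ∀ a b, F (a + b) = F a + F b := by
    intro a b
    obtain ⟨a, rfl⟩ := hπ a
    obtain ⟨b, rfl⟩ := hπ b
    rw [← map_add, hF, hF, hF, map_add, map_add]
  refine ⟨AddMonoidHom.mk' F hadd, ?_, hF⟩
  intro a b
  obtain ⟨a, rfl⟩ := hπ a
  obtain ⟨b, rfl⟩ := hπ b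
  simp only [AddMonoidHom.mk'_apply]
  rw [← map_pow, ← map_mul, hF, hF, hφ, map_mul]

theorem frobenius_finite_of_finiteType (p : ℕ) [Fact p.Prime] (A : Type) [CommRing A]
    [Algebra (ZMod p) A] [CharP A p] [Algebra.FiniteType (ZMod p) A] :
    (frobenius A p).Finite := by
  have hp : p.Prime := Fact.out
  apply RingHom.Finite.of_isIntegral_of_finiteType
  · intro x
    refine ⟨Polynomial.X ^ p - Polynomial.C x, Polynomial.monic_X_pow_sub_C _ hp.ne_zero, ?_⟩
    simp [frobenius_def]
  · apply RingHom.FiniteType.of_comp_finiteType (f := algebraMap (ZMod p) A)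
    have : (frobenius A p).comp (algebraMap (ZMod p) A) = algebraMap (ZMod p) A :=
      Subsingleton.elim _ _
    rw [this]
    exact RingHom.finiteType_algebraMap.mpr inferInstance

theorem finite_iff_exists {A B : Type u} [CommRing A] [CommRing B] (f : A →+* B) :
    f.Finite ↔ ∃ T : Finset B, ∀ W : AddSubgroup B, (∀ a, ∀ x ∈ W, f a * x ∈ W) →
      (∀ t ∈ T, t ∈ W) → ∀ x, x ∈ W := by
  letI : Algebra A B := f.toAlgebra
  constructor
  · intro h
    obtain ⟨T, hT⟩ := h.1
    refine ⟨T, fun W hW hTW x => ?_⟩
    have hx : x ∈ Submodule.span A (T : Set B) := by rw [hT]; trivial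
    induction hx using Submodule.span_induction with
    | mem x hx => exact hTW x hx
    | zero => exact W.zero_mem
    | add x y _ _ hx hy => exact W.add_mem hx hy
    | smul a x _ hx => exact hW a x hx
  · rintro ⟨T, hT⟩
    refine ⟨T, ?_⟩
    rw [eq_top_iff]
    intro x _
    exact hT (Submodule.span A (T : Set B)).toAddSubgroup
      (fun a x hx => Submodule.smul_mem _ a hx) (fun t ht => Submodule.subset_span ht) x

theorem frobenius_finite_localization (p : ℕ) [Fact p.Prime] {A : Type u} [CommRing A] [CharP A p]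
    (hfin : (frobenius A p).Finite) (S : Submonoid A) (A' : Type u) [CommRing A'] [Algebra A A']
    [IsLocalization S A'] [CharP A' p] : (frobenius A' p).Finite := by
  classical
  have hp : p.Prime := Fact.out
  obtain ⟨k, hk⟩ : ∃ k, p = k + 1 := ⟨p - 1, by have := hp.pos; omega⟩
  rw [finite_iff_exists] at hfin ⊢
  obtain ⟨T, hT⟩ := hfin
  refine ⟨T.image (algebraMap A A'), fun W hW hTW z => ?_⟩
  have key : ∀ x : A, algebraMap A A' x ∈ W := by
    refine hT (W.comap (algebraMap A A').toAddMonoidHom) ?_ ?_
    · intro a x hx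
      have h := hW (algebraMap A A' a) _ hx
      simpa [frobenius_def] using h
    · intro t ht
      exact hTW _ (Finset.mem_image_of_mem _ ht)
  obtain ⟨⟨x, s⟩, rfl⟩ := IsLocalization.mk'_surjective S z
  have h := hW (IsLocalization.mk' A' (1 : A) s) _ (key (x * (s : A) ^ k))
  convert h using 1
  rw [frobenius_def, ← IsLocalization.mk'_pow, ← IsLocalization.mk'_one (M := S) A',
    ← IsLocalization.mk'_mul, IsLocalization.eq]
  refine ⟨1, ?_⟩
  simp only [Submonoid.coe_mul, OneMemClass.coe_one, one_mul, SubmonoidClass.coe_pow, one_pow,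
    mul_one]
  have : (s : A) ^ p = (s : A) ^ (k + 1) := by rw [← hk]
  rw [this]
  ring

theorem mem_circ_of_mem_nonZeroDivisors {R : Type u} [CommRing R] {x : R}
    (hx : x ∈ nonZeroDivisors R) : x ∈ circ R :=
  fun _ hP h => notMem_nonZeroDivisors_of_mem_mem_minimalPrimes h hP hx

section poly
variable (p : ℕ) [Fact p.Prime]

abbrev Poly := MvPolynomial (Fin 3) (ZMod p)

theorem exists_extract (q N : ℕ) (hN : N < q) (e : ℕ) (hq : q = p ^ e) :
    ∃ φ : Poly p →+ Poly p, PLin q φ ∧ φ (X 2 ^ N) = 1 ∧
      ∀ f, (X 0 * X 1 : Poly p) ∣ φ (X 0 * X 1 * f) := by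
  classical
  let n0 : Fin 3 →₀ ℕ := Finsupp.single 2 N
  have hq0 : 0 < q := by omega
  have hn0 : ∀ i, n0 i < q := by
    intro i
    simp only [n0, Finsupp.single_apply]
    split_ifs <;> omega
  let g : (Fin 3 →₀ ℕ) → Poly p := fun b =>
    if h : ∃ a, b = q • a + n0 then monomial h.choose 1 else 0
  have g1 : ∀ a, g (q • a + n0) = monomial a 1 := by
    intro a
    have h : ∃ a', q • a + n0 = q • a' + n0 := ⟨a, rfl⟩
    simp only [g, dif_pos h]
    have hs := h.choose_spec
    generalize h.choose = a' at hs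
    congr 2
    ext i
    have hi := DFunLike.congr_fun hs i
    simp only [Finsupp.add_apply, Finsupp.smul_apply, smul_eq_mul, add_left_inj] at hi
    exact (Nat.eq_of_mul_eq_mul_left hq0 hi).symm
  have g0 : ∀ b, (¬ ∃ a, b = q • a + n0) → g b = 0 := by
    intro b h
    simp only [g, dif_neg h]
  have g2 : ∀ a b, g (q • a + b) = monomial a 1 * g b := by
    intro a b
    by_cases h : ∃ a', b = q • a' + n0
    · obtain ⟨a', rfl⟩ := h
      rw [← add_assoc, ← smul_add, g1, g1, monomial_mul, one_mul]
    · rw [g0 b h, mul_zero, g0]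
      rintro ⟨a', ha'⟩
      apply h
      refine ⟨a' - a, ?_⟩
      ext i
      have hi := DFunLike.congr_fun ha' i
      simp only [Finsupp.add_apply, Finsupp.smul_apply, smul_eq_mul, Finsupp.tsub_apply] at hi ⊢
      have h1 := hn0 i
      have h2 : a i ≤ a' i := by
        by_contra hlt
        have : q * (a' i + 1) ≤ q * a i := Nat.mul_le_mul_left q (by omega)
        rw [mul_add] at this
        omega
      obtain ⟨c, hc⟩ := Nat.exists_eq_add_of_le h2
      rw [hc, mul_add] at hi
      rw [hc, Nat.add_sub_cancel_left]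
      omega
  let φ : Poly p →ₗ[ZMod p] Poly p := (basisMonomials (Fin 3) (ZMod p)).constr (ZMod p) g
  have hφ : ∀ b d, φ (monomial b d) = d • g b := by
    intro b d
    have : (monomial b d : Poly p) = d • basisMonomials (Fin 3) (ZMod p) b := by
      simp [coe_basisMonomials, smul_monomial]
    rw [this, map_smul, Module.Basis.constr_basis]
  refine ⟨φ.toAddMonoidHom, ?_, ?_, ?_⟩
  · intro r x
    change φ (r ^ q * x) = r * φ x
    induction r using MvPolynomial.induction_on' generalizing x with
    | add r₁ r₂ h₁ h₂ =>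
      rw [hq, add_pow_char_pow, ← hq, add_mul, map_add, h₁, h₂, add_mul]
    | monomial a c =>
      induction x using MvPolynomial.induction_on' with
      | add x₁ x₂ h₁ h₂ => rw [mul_add, map_add, h₁, h₂, map_add, mul_add]
      | monomial b d =>
        have hc : c ^ q = c := by rw [hq]; exact ZMod.pow_card_pow c
        rw [monomial_pow, monomial_mul, hφ, hφ, g2, hc]
        have : (monomial a c : Poly p) = c • monomial a 1 := by simp [smul_monomial]
        rw [this, smul_mul_smul_comm]
  · change φ (X 2 ^ N) = 1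
    rw [X_pow_eq_monomial, hφ, one_smul]
    have := g1 0
    rw [smul_zero, zero_add] at this
    exact this
  · intro f
    change _ ∣ φ (X 0 * X 1 * f)
    induction f using MvPolynomial.induction_on' with
    | add x₁ x₂ h₁ h₂ => rw [mul_add, map_add]; exact dvd_add h₁ h₂
    | monomial b d =>
      have hX : (X 0 * X 1 : Poly p) = monomial (Finsupp.single 0 1 + Finsupp.single 1 1) 1 := by
        rw [X, X, monomial_mul, one_mul]
      rw [hX, monomial_mul, hφ]
      rw [smul_eq_C_mul]
      apply Dvd.dvd.mul_left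
      by_cases h : ∃ a, Finsupp.single 0 1 + Finsupp.single 1 1 + b = q • a + n0
      · obtain ⟨a, ha⟩ := h
        rw [ha, g1, monomial_dvd_monomial]
        refine ⟨Or.inr ?_, dvd_rfl⟩
        have h0 := DFunLike.congr_fun ha 0
        have h1 := DFunLike.congr_fun ha 1
        simp [n0] at h0 h1
        have h0' : a 0 ≠ 0 := by rintro h; rw [h] at h0; omega
        have h1' : a 1 ≠ 0 := by rintro h; rw [h] at h1; omega
        intro i
        fin_cases i <;> simp <;> omega
      · rw [g0 _ h]; exact dvd_zero _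

end poly

end Pool.Agent.MP_80c6d6_ag
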