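import Pool.Agent.MP_80c6d6_ag.Main

set_option autoImplicit false
set_option linter.style.haveILetI false

open Filter Topology
open scoped ENNReal NNReal

namespace Pool.Agent.MP_80c6d6_ag

universe u

variable {R : Type u} [CommRing R]

/-- The elements sent into `P` by every `q⁻¹`-linear map. -/
def splitIdeal (P : Ideal R) (q : ℕ) : Ideal R where
  carrier := {x | ∀ φ : R →+ R, PLin q φ → φ x ∈ P}
  add_mem' := fun ha hb φ hφ => by
    rw [map_add]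
    exact P.add_mem (ha φ hφ) (hb φ hφ)
  zero_mem' := fun φ _ => by
    rw [map_zero]
    exact P.zero_mem
  smul_mem' := fun c _ hx φ hφ => hx _ (hφ.premul c)

theorem splitsAt_iff_not_le {P : Ideal R} {q : ℕ} {J : Ideal R} :
    SplitsAt P q J ↔ ¬ J ≤ splitIdeal P q := by
  constructor
  · rintro ⟨φ, hφ, d, hd, hP⟩ h
    exact hP (h hd φ hφ)
  · intro h
    by_contra hn
    refine h fun d hd φ hφ => ?_
    by_contra hP
    exact hn ⟨φ, hφ, d, hd, hP⟩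

theorem span_pow_le (Q : ℕ) (F : Ideal R) (s : Finset R) (hF : ∀ x ∈ s, x ^ Q ∈ F) (N : ℕ)
    (hN : s.card * Q ≤ N) (h1 : 1 ≤ N) :
    Ideal.span (s : Set R) ^ N ≤ F * Ideal.span (s : Set R) ^ (N - Q) := by
  classical
  induction s using Finset.induction_on generalizing N with
  | empty =>
    obtain ⟨k, rfl⟩ := Nat.exists_eq_add_of_le h1
    simp [pow_add]
  | insert a s ha ih =>
    rw [Finset.card_insert_of_notMem ha, add_mul, one_mul] at hN
    have hA : Ideal.span {a} ≤ Ideal.span ((insert a s : Finset R) : Set R) :=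
      Ideal.span_mono (by simp)
    have hB : Ideal.span (s : Set R) ≤ Ideal.span ((insert a s : Finset R) : Set R) :=
      Ideal.span_mono (by simp)
    have hS : Ideal.span ((insert a s : Finset R) : Set R) =
        Ideal.span {a} + Ideal.span (s : Set R) := by
      rw [Finset.coe_insert, Ideal.span_insert, Ideal.add_eq_sup]
    generalize Ideal.span ((insert a s : Finset R) : Set R) = K at hA hB hS ⊢
    conv_lhs => rw [hS, add_pow]
    refine Finset.sum_induction _ (fun J => J ≤ F * K ^ (N - Q))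
      (fun x y hx hy => sup_le hx hy) bot_le fun i hi => ?_
    have hi' : i ≤ N := Nat.lt_succ_iff.1 (Finset.mem_range.1 hi)
    refine Ideal.mul_le_left.trans ?_
    by_cases hq : Q ≤ i
    · obtain ⟨k, rfl⟩ := Nat.exists_eq_add_of_le hq
      have e : N - Q = k + (N - (Q + k)) := by omega
      rw [pow_add, mul_assoc, e, pow_add]
      refine Ideal.mul_mono ?_ (Ideal.mul_mono (Ideal.pow_right_mono hA _)
        (Ideal.pow_right_mono hB _))
      rw [Ideal.span_singleton_pow, Ideal.span_singleton_le_iff_mem]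
      exact hF a (by simp)
    · have := ih (fun x hx => hF x (by simp [hx])) (N - i) (by omega) (by omega)
      refine (Ideal.mul_mono_right this).trans ?_
      rw [mul_left_comm]
      refine Ideal.mul_mono_right ((Ideal.mul_mono (Ideal.pow_right_mono hA _)
        (Ideal.pow_right_mono hB _)).trans ?_)
      rw [← pow_add]
      exact Ideal.pow_le_pow_right (by omega)

theorem span_pow_le_pow (Q : ℕ) (hQ : 1 ≤ Q) (F : Ideal R) (s : Finset R)
    (hF : ∀ x ∈ s, x ^ Q ∈ F) (r : ℕ) :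
    ∀ N, (r + s.card) * Q ≤ N → Ideal.span (s : Set R) ^ N ≤ F ^ r := by
  induction r with
  | zero => intro N _; simp
  | succ r ih =>
    intro N hN
    have e : (r + 1 + s.card) * Q = (r + s.card) * Q + Q := by ring
    have e' : (r + s.card) * Q = r * Q + s.card * Q := by ring
    rw [pow_succ']
    exact (span_pow_le Q F s hF N (by omega) (by omega)).trans
      (Ideal.mul_mono_right (ih _ (by omega)))

/-- Descent of a splitting to a lower level. -/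
theorem SplitsAt.descend (p : ℕ) [Fact p.Prime] [CharP R p] {P : Ideal R} {q j r N : ℕ}
    {s : Finset R} (hN : (r + s.card) * p ^ j ≤ N)
    (h : SplitsAt P (q * p ^ j) (Ideal.span (s : Set R) ^ N)) :
    SplitsAt P q (Ideal.span (s : Set R) ^ r) := by
  rw [splitsAt_iff_not_le] at h ⊢
  intro hle
  apply h
  refine (span_pow_le_pow (p ^ j) (Nat.one_le_pow _ _ (Fact.out : p.Prime).pos)
    ((Ideal.span (s : Set R)).map (iterateFrobenius R p j)) s (fun x hx => ?_) r N hN).trans ?_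
  · rw [← iterateFrobenius_def]
    exact Ideal.mem_map_of_mem _ (Ideal.subset_span hx)
  · rw [← Ideal.map_pow, Ideal.map_le_iff_le_comap]
    intro x hx φ hφ
    refine hle hx (φ.comp (iterateFrobenius R p j).toAddMonoidHom) fun a y => ?_
    simp only [AddMonoidHom.comp_apply, RingHom.toAddMonoidHom_eq_coe, AddMonoidHom.coe_coe,
      iterateFrobenius_def]
    rw [mul_pow, ← pow_mul, hφ]

variable (p : ℕ) [Fact p.Prime] [CharP R p] [IsNoetherianRing R]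

theorem splitsAt_of_pure (hfin : (frobenius R p).Finite) {s : Finset R} {t : ℝ≥0}
    (h : IsFPurePair p (Ideal.span (s : Set R)) t) (P : Ideal R) [P.IsPrime] (e r : ℕ)
    (hr : (r : ℝ) + s.card < t * (p : ℝ) ^ e) :
    SplitsAt P (p ^ e) (Ideal.span (s : Set R) ^ r) := by
  have hp1 : (1 : ℝ) < p := by exact_mod_cast (Fact.out : p.Prime).one_lt
  rw [isFPurePair_iff p hfin] at h
  have h1 := (tendsto_add_atTop_nat e).eventually (h P)
  have h2 := ((tendsto_pow_atTop_atTop_of_one_lt hp1).const_mul_atTop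
    (sub_pos.2 hr)).eventually_ge_atTop (t : ℝ)
  obtain ⟨j, hj, hj'⟩ := (h1.and h2).exists
  rw [add_comm j e, pow_add] at hj
  refine SplitsAt.descend p ?_ hj
  have := Nat.le_ceil ((t : ℝ) * ((p : ℝ) ^ (e + j) - 1))
  have h3 : ((r : ℝ) + s.card) * (p : ℝ) ^ j ≤ t * ((p : ℝ) ^ (e + j) - 1) := by
    rw [pow_add]
    linarith
  exact_mod_cast h3.trans this

theorem pure_of_level (hfin : (frobenius R p).Finite) {𝔞 𝔟 J : Ideal R} {u w : ℝ≥0} {e r k : ℕ}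
    (ha : ∀ (P : Ideal R) [P.IsPrime], SplitsAt P (p ^ e) (𝔞 ^ r)) (hb : IsFPurePair p 𝔟 u)
    (hJ : 𝔞 ^ k * 𝔟 ≤ J) (h1 : (k : ℝ) * w * (p : ℝ) ^ e < r) (h2 : (w : ℝ) * (p : ℝ) ^ e < u) :
    IsFPurePair p J w := by
  have hp : p.Prime := Fact.out
  have hp1 : (1 : ℝ) < p := by exact_mod_cast hp.one_lt
  have ht := tendsto_pow_atTop_atTop_of_one_lt hp1
  rw [isFPurePair_iff p hfin] at hb ⊢
  intro P hP
  obtain ⟨j₀, hj₀⟩ := eventually_atTop.1 ((hb P).and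
    (((ht.const_mul_atTop (sub_pos.2 h1)).eventually_ge_atTop (k : ℝ)).and
      ((ht.const_mul_atTop (sub_pos.2 h2)).eventually_ge_atTop (u : ℝ))))
  filter_upwards [eventually_ge_atTop (e + j₀)] with E hE
  obtain ⟨j, rfl⟩ : ∃ j, E = e + j := ⟨E - e, by omega⟩
  obtain ⟨g1, g2, g3⟩ := hj₀ j (by omega)
  have hc := (ha P).comp (Nat.one_le_pow _ _ hp.pos) g1
  rw [← pow_add, ← pow_mul] at hc
  have hw : (0 : ℝ) ≤ w := w.2
  have hk : (0 : ℝ) ≤ k := Nat.cast_nonneg _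
  have hq : (1 : ℝ) ≤ (p : ℝ) ^ (e + j) := one_le_pow₀ hp1.le
  refine hc.mono (le_trans ?_ (Ideal.pow_right_mono hJ _))
  rw [mul_pow, ← pow_mul]
  refine Ideal.mul_mono (Ideal.pow_le_pow_right ?_) (Ideal.pow_le_pow_right (Nat.ceil_mono ?_))
  · have a1 := (Nat.ceil_lt_add_one (mul_nonneg hw (sub_nonneg.2 hq))).le
    have a2 := mul_le_mul_of_nonneg_left a1 hk
    have a3 : (k : ℝ) * ⌈(w : ℝ) * ((p : ℝ) ^ (e + j) - 1)⌉₊ ≤ r * (p : ℝ) ^ j := by
      refine a2.trans ?_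
      rw [pow_add]
      nlinarith [mul_nonneg hk hw]
    exact_mod_cast a3
  · rw [pow_add]
    nlinarith

theorem pure_of_lt (hfin : (frobenius R p).Finite) {s : Finset R} {𝔟 J : Ideal R}
    {t₀ t u w : ℝ≥0} {k : ℕ} (ht₀ : 0 < t₀) (ht : t₀ ≤ t) (hu : 0 < u)
    (ha : IsFPurePair p (Ideal.span (s : Set R)) t) (hb : IsFPurePair p 𝔟 u)
    (hJ : Ideal.span (s : Set R) ^ k * 𝔟 ≤ J)
    (hw : (w : ℝ) * (k / t + (p * (s.card + 1) / t₀ + 1) / u) < 1) : IsFPurePair p J w := by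
  have hp1 : (1 : ℝ) < p := by exact_mod_cast (Fact.out : p.Prime).one_lt
  have a0 : (0 : ℝ) < t₀ := ht₀
  have a1 : (t₀ : ℝ) ≤ t := ht
  have a2 : (0 : ℝ) < u := hu
  have a3 : (0 : ℝ) ≤ w := w.2
  have a4 : (0 : ℝ) < t := a0.trans_le a1
  have a5 : (0 : ℝ) ≤ k := Nat.cast_nonneg _
  have a6 : (0 : ℝ) ≤ s.card := Nat.cast_nonneg _
  obtain ⟨D, hD⟩ : ∃ D : ℝ, D = p * (s.card + 1) / t₀ := ⟨_, rfl⟩
  have hD0 : 0 ≤ D := by rw [hD]; positivity
  have hD1 : D * t₀ = p * (s.card + 1) := by rw [hD]; field_simp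
  obtain ⟨N, hN⟩ : ∃ N : ℝ, N = k / t + (D + 1) / u := ⟨_, rfl⟩
  rw [← hD, ← hN] at hw
  have hN1 : u * N = u * (k / t) + (D + 1) := by rw [hN]; field_simp
  have hN2 : t * N = k + t * ((D + 1) / u) := by rw [hN]; field_simp
  have hkt : 0 ≤ (u : ℝ) * (k / t) := by positivity
  have hN0 : 0 < N := by rw [hN]; positivity
  obtain ⟨e, he1, he2⟩ := exists_nat_pow_near (x := u * N) (y := (p : ℝ)) (by linarith) hp1
  have hq : (0 : ℝ) < (p : ℝ) ^ e := by positivity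
  generalize hqd : (p : ℝ) ^ e = q at hq he1
  rw [pow_succ, hqd] at he2
  have b1 : (w : ℝ) * q < u := by
    calc (w : ℝ) * q ≤ w * (u * N) := by gcongr
      _ = u * (w * N) := by ring
      _ < u * 1 := by gcongr
      _ = u := mul_one _
  have b2 : (k : ℝ) * w * q + 1 + s.card < t * q := by
    have c1 : (k : ℝ) * (w * N) ≤ k := by nlinarith
    have c2 : (s.card + 1) * (u * N) * t₀ ≤ (s.card + 1) * (q * p) * t₀ := by gcongr
    have c3 : (s.card + 1) * (q * p) * (t₀ : ℝ) = q * (D * t₀) * t₀ := by rw [hD1]; ring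
    have c4 : ((s.card : ℝ) + 1) * (u * N) ≤ q * (D * t) := by
      have : ((s.card : ℝ) + 1) * (u * N) ≤ q * (D * t₀) := by
        refine le_of_mul_le_mul_right ?_ a0
        rw [← c3]
        exact c2
      refine this.trans ?_
      gcongr
    have c5 : u * (t * N) = u * k + t * (D + 1) := by rw [hN2]; field_simp
    refine lt_of_mul_lt_mul_right ?_ (mul_pos a2 hN0).le
    calc ((k : ℝ) * w * q + 1 + s.card) * (u * N)
        = q * u * (k * (w * N)) + (s.card + 1) * (u * N) := by ring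
      _ ≤ q * u * k + q * (D * t) := by gcongr
      _ < q * u * k + q * (D * t) + q * t := by nlinarith [mul_pos hq a4]
      _ = q * (u * k + t * (D + 1)) := by ring
      _ = t * q * (u * N) := by rw [← c5]; ring
  subst hqd
  have f0 : 0 ≤ (k : ℝ) * w * (p : ℝ) ^ e := by positivity
  refine pure_of_level p hfin (r := ⌊(k : ℝ) * w * (p : ℝ) ^ e⌋₊ + 1) (e := e)
    (fun P _ => splitsAt_of_pure p hfin ha P e _ ?_) hb hJ ?_ b1
  · have := Nat.floor_le f0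
    push_cast
    linarith
  · push_cast
    exact Nat.lt_floor_add_one _

omit [IsNoetherianRing R] in
theorem exists_pure_of_pos {p : ℕ} {𝔞 : Ideal R} (h : 0 < fpt p 𝔞) :
    ∃ t : ℝ≥0, 0 < t ∧ IsFPurePair p 𝔞 t := by
  simp only [fpt, lt_iSup_iff] at h
  obtain ⟨t, ht, h⟩ := h
  exact ⟨t, by exact_mod_cast h, ht⟩

/-- Subadditivity up to a bounded error. -/
theorem inv_fpt_le (hfin : (frobenius R p).Finite) {𝔞 𝔟 : Ideal R} (ha : 0 < fpt p 𝔞)
    (hb : 0 < fpt p 𝔟) : ∃ C : ℝ≥0, ∀ (k : ℕ) (J : Ideal R), 𝔞 ^ k * 𝔟 ≤ J →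
      (fpt p J)⁻¹ ≤ k * (fpt p 𝔞)⁻¹ + C := by
  obtain ⟨s, rfl⟩ := (IsNoetherian.noetherian 𝔞 : 𝔞.FG)
  obtain ⟨t₀, ht₀, h₀⟩ := exists_pure_of_pos ha
  obtain ⟨u, hu, hb⟩ := exists_pure_of_pos hb
  refine ⟨(p * (s.card + 1) / t₀ + 1) / u, fun k J hJ => ?_⟩
  generalize hC : ((p : ℝ≥0) * (s.card + 1) / t₀ + 1) / u = C
  have hC0 : 0 < C := by rw [← hC]; positivity
  have key : ∀ t : ℝ≥0, t₀ ≤ t → IsFPurePair p (Ideal.span (s : Set R)) t →
      (fpt p J)⁻¹ ≤ k * (t : ℝ≥0∞)⁻¹ + C := by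
    intro t ht h
    have ht' : 0 < t := ht₀.trans_le ht
    have hN : 0 < k * t⁻¹ + C := by positivity
    have e : (k * (t : ℝ≥0∞)⁻¹ + C) = ((k * t⁻¹ + C : ℝ≥0) : ℝ≥0∞) := by
      push_cast [ENNReal.coe_inv ht'.ne']
      rfl
    rw [e, ENNReal.inv_le_iff_inv_le, ← ENNReal.coe_inv hN.ne']
    refine ENNReal.le_of_forall_nnreal_lt fun w hw => le_fpt ?_
    refine pure_of_lt p hfin ht₀ ht hu h hb hJ ?_
    have h1 : w < (k * t⁻¹ + C)⁻¹ := by exact_mod_cast hw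
    have h2 : w * (k * t⁻¹ + C) < 1 := (lt_mul_inv_iff₀ hN).1 (by rwa [one_mul])
    rw [← hC] at h2
    exact_mod_cast h2
  have lim : Tendsto (fun x : ℝ≥0∞ => k * x⁻¹ + C) (𝓝 (fpt p (Ideal.span (s : Set R))))
      (𝓝 (k * (fpt p (Ideal.span (s : Set R)))⁻¹ + C)) :=
    (ENNReal.Tendsto.const_mul (continuous_inv.tendsto _)
      (Or.inr (ENNReal.natCast_ne_top k))).add tendsto_const_nhds
  by_contra hn
  obtain ⟨y, hy, hy'⟩ := exists_Ioc_subset_of_mem_nhds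
    (lim.eventually_lt_const (not_le.1 hn)) ⟨0, ha⟩
  have hy2 := hy
  simp only [fpt, lt_iSup_iff] at hy2
  obtain ⟨t, ht, hyt⟩ := hy2
  have hm : IsFPurePair p (Ideal.span (s : Set R)) (max t t₀) := by
    rcases max_choice t t₀ with e | e <;> rw [e] <;> assumption
  refine absurd (key _ (le_max_right _ _) hm) (not_le.2 (hy' ⟨hyt.trans_le ?_, le_fpt hm⟩))
  exact_mod_cast le_max_left t t₀

theorem IsGradedSeq.pos_add (hfin : (frobenius R p).Finite) {I : ℕ → Ideal R}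
    (hI : IsGradedSeq I) {m n : ℕ} (hm : 1 ≤ m) (hn : 1 ≤ n) (h1 : 0 < fpt p (I m))
    (h2 : 0 < fpt p (I n)) : 0 < fpt p (I (m + n)) := by
  obtain ⟨C, hC⟩ := inv_fpt_le p hfin h1 h2
  have := hC 1 (I (m + n)) (by rw [pow_one]; exact hI.2 m n hm hn)
  rw [← ENNReal.inv_lt_top]
  refine this.trans_lt (ENNReal.add_lt_top.2 ⟨?_, ENNReal.coe_lt_top⟩)
  rw [Nat.cast_one, one_mul]
  exact ENNReal.inv_lt_top.2 h1

theorem IsGradedSeq.rate (hfin : (frobenius R p).Finite) {I : ℕ → Ideal R}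
    (hI : IsGradedSeq I) {m : ℕ} (hm : 1 ≤ m) : ∃ C : ℝ≥0, ∀ n : ℕ, 1 ≤ n → 0 < fpt p (I n) →
      ((n : ℝ≥0∞) * fpt p (I n))⁻¹ ≤ ((m : ℝ≥0∞) * fpt p (I m))⁻¹ + C / n := by
  classical
  rcases eq_zero_or_pos (fpt p (I m)) with h0 | h0
  · exact ⟨0, fun n _ _ => by simp [h0]⟩
  have step : ∀ c : ℕ, ∃ C : ℝ≥0, ∀ n : ℕ, 1 ≤ n → 0 < fpt p (I n) → n % m = c →
      ∃ k : ℕ, k * m ≤ n ∧ (fpt p (I n))⁻¹ ≤ k * (fpt p (I m))⁻¹ + C := by
    intro c
    by_cases hex : ∃ r, 1 ≤ r ∧ 0 < fpt p (I r) ∧ r % m = c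
    · obtain ⟨r1, r2, r3⟩ := Nat.find_spec hex
      obtain ⟨C, hC⟩ := inv_fpt_le p hfin h0 r2
      refine ⟨C, fun n n1 n2 n3 => ?_⟩
      have hle : Nat.find hex ≤ n := Nat.find_min' hex ⟨n1, n2, n3⟩
      obtain ⟨k, hk⟩ := (Nat.modEq_iff_dvd' hle).1 (r3.trans n3.symm)
      have e : n = k * m + Nat.find hex := by rw [mul_comm]; omega
      refine ⟨k, by omega, hC k _ ?_⟩
      conv_rhs => rw [e]
      exact hI.pow_mul_le hm r1 k
    · exact ⟨0, fun n n1 n2 n3 => absurd ⟨n, n1, n2, n3⟩ hex⟩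
  choose C hC using step
  refine ⟨∑ c ∈ Finset.range m, C c, fun n n1 n2 => ?_⟩
  obtain ⟨k, hk, h⟩ := hC _ n n1 n2 rfl
  have hn0 : (n : ℝ≥0∞) ≠ 0 := by exact_mod_cast (by omega : n ≠ 0)
  have hm0 : (m : ℝ≥0∞) ≠ 0 := by exact_mod_cast (by omega : m ≠ 0)
  have hnt := ENNReal.natCast_ne_top n
  have hmt := ENNReal.natCast_ne_top m
  rw [ENNReal.mul_inv (Or.inl hn0) (Or.inl hnt), ENNReal.mul_inv (Or.inl hm0) (Or.inl hmt),
    div_eq_mul_inv, mul_comm _ (n : ℝ≥0∞)⁻¹]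
  refine (mul_le_mul_right h _).trans ?_
  rw [mul_add, ← mul_assoc]
  gcongr
  · rw [← ENNReal.div_eq_inv_mul, ENNReal.div_le_iff hn0 hnt, ← ENNReal.div_eq_inv_mul,
      ENNReal.le_div_iff_mul_le (Or.inl hm0) (Or.inl hmt)]
    exact_mod_cast hk
  · exact Finset.single_le_sum (f := C) (fun _ _ => zero_le)
      (Finset.mem_range.2 (Nat.mod_lt _ hm))

theorem tendsto_of_rate {a : ℕ → ℝ≥0∞} {S : ℕ → Prop} {ι : Type} {l : Filter ι} {g : ι → ℕ}
    (h : ∀ m, 1 ≤ m → ∃ C : ℝ≥0, ∀ n : ℕ, 1 ≤ n → S n → (a n)⁻¹ ≤ (a m)⁻¹ + C / n)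
    (hg : Tendsto g l atTop) (hS : ∀ᶠ i in l, S (g i)) :
    Tendsto (fun i => a (g i)) l (𝓝 (⨆ (m : ℕ) (_ : 1 ≤ m), a m)) := by
  rw [tendsto_order]
  constructor
  · intro y hy
    simp only [lt_iSup_iff] at hy
    obtain ⟨m, hm, hy⟩ := hy
    obtain ⟨C, hC⟩ := h m hm
    have l1 : Tendsto (fun n : ℕ => (a m)⁻¹ + C / n) atTop (𝓝 ((a m)⁻¹ + C * 0)) :=
      tendsto_const_nhds.add (ENNReal.Tendsto.const_mul ENNReal.tendsto_inv_nat_nhds_zero
        (Or.inr ENNReal.coe_ne_top))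
    rw [mul_zero, add_zero] at l1
    filter_upwards [hS, hg.eventually (eventually_ge_atTop 1),
      hg.eventually (l1.eventually_lt_const (ENNReal.inv_lt_inv.2 hy))] with i i1 i2 i3
    exact ENNReal.inv_lt_inv.1 ((hC _ i2 i1).trans_lt i3)
  · intro y hy
    filter_upwards [hg.eventually (eventually_ge_atTop 1)] with i hi
    exact lt_of_le_of_lt (le_iSup₂_of_le (f := fun (m : ℕ) (_ : 1 ≤ m) => a m) _ hi le_rfl) hy

theorem exists_period {S : ℕ → Prop} (hadd : ∀ m n, 1 ≤ m → 1 ≤ n → S m → S n → S (m + n))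
    (hne : ∃ m, 1 ≤ m ∧ S m) :
    ∃ d, 1 ≤ d ∧ (∀ m, 1 ≤ m → S m → d ∣ m) ∧ ∀ᶠ k in atTop, S (d * k) := by
  obtain ⟨m, hm⟩ := hne
  have hd : 1 ≤ Nat.setGcd {m | 1 ≤ m ∧ S m} := by
    rw [Nat.one_le_iff_ne_zero, Ne, Nat.setGcd_eq_zero_iff]
    intro h
    have : m = 0 := h hm
    omega
  refine ⟨_, hd, fun m h1 h2 => Nat.setGcd_dvd_of_mem ⟨h1, h2⟩, ?_⟩
  obtain ⟨N, hN⟩ := Nat.exists_mem_closure_of_ge {m | 1 ≤ m ∧ S m}
  have cl : ∀ x ∈ AddSubmonoid.closure {m | 1 ≤ m ∧ S m}, x = 0 ∨ S x := by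
    intro x hx
    induction hx using AddSubmonoid.closure_induction with
    | mem x hx => exact Or.inr hx.2
    | zero => exact Or.inl rfl
    | add x y _ _ hx hy =>
      rcases Nat.eq_zero_or_pos x with rfl | x0
      · rwa [zero_add]
      rcases Nat.eq_zero_or_pos y with rfl | y0
      · rwa [add_zero]
      exact Or.inr (hadd x y x0 y0 (hx.resolve_left x0.ne') (hy.resolve_left y0.ne'))
  filter_upwards [eventually_ge_atTop (N + 1)] with k hk
  have := Nat.mul_le_mul_right k hd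
  exact (cl _ (hN _ (by omega) (dvd_mul_right _ _))).resolve_left (by omega)

theorem structure_thm (hfin : (frobenius R p).Finite) (I : ℕ → Ideal R) (hI : IsGradedSeq I) :
    (∃ d : ℕ, 1 ≤ d ∧ (∀ m : ℕ, ¬ d ∣ m → fpt p (I m) = 0) ∧
      Tendsto (fun k : ℕ => ((d * k : ℕ) : ℝ≥0∞) * fpt p (I (d * k))) atTop
        (𝓝 (⨆ (m : ℕ) (_ : 1 ≤ m), (m : ℝ≥0∞) * fpt p (I m)))) ∧
    (∀ m : ℕ, 1 ≤ m → ∃ C : ℝ≥0, ∀ n : ℕ, 1 ≤ n → 0 < fpt p (I n) →
      ((n : ℝ≥0∞) * fpt p (I n))⁻¹ ≤ ((m : ℝ≥0∞) * fpt p (I m))⁻¹ + C / n) ∧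
    ((∃ l : ℝ≥0∞, Tendsto (fun m : ℕ => (m : ℝ≥0∞) * fpt p (I m)) atTop (𝓝 l)) ↔
      (∀ᶠ m : ℕ in atTop, 0 < fpt p (I m)) ∨ ∀ m : ℕ, 1 ≤ m → fpt p (I m) = 0) := by
  have rate := fun m (hm : 1 ≤ m) => hI.rate p hfin hm
  have zero : (∀ m : ℕ, 1 ≤ m → fpt p (I m) = 0) →
      Tendsto (fun m : ℕ => (m : ℝ≥0∞) * fpt p (I m)) atTop (𝓝 0) := fun h =>
    tendsto_const_nhds.congr' ((eventually_ge_atTop 1).mono fun m hm => by
      simp only [h m hm, mul_zero])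
  by_cases hne : ∃ m, 1 ≤ m ∧ 0 < fpt p (I m)
  · obtain ⟨d, hd, h1, h2⟩ := exists_period (S := fun m => 0 < fpt p (I m))
      (fun m n hm hn => hI.pos_add p hfin hm hn) hne
    have hg : Tendsto (fun k : ℕ => d * k) atTop atTop := tendsto_id.const_mul_atTop' hd
    have lim := tendsto_of_rate (a := fun m : ℕ => (m : ℝ≥0∞) * fpt p (I m)) rate hg h2
    refine ⟨⟨d, hd, fun m hm => ?_, lim⟩, rate, ?_, ?_⟩
    · by_contra h
      exact hm (h1 m (Nat.pos_of_ne_zero fun e => hm (e ▸ dvd_zero d)) (pos_iff_ne_zero.2 h))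
    · rintro ⟨l, hl⟩
      left
      have e := tendsto_nhds_unique (hl.comp hg) lim
      obtain ⟨m, hm, hm'⟩ := hne
      have hpos : 0 < l := by
        rw [e]
        refine lt_of_lt_of_le ?_ (le_iSup₂_of_le
          (f := fun (m : ℕ) (_ : 1 ≤ m) => (m : ℝ≥0∞) * fpt p (I m)) m hm le_rfl)
        exact ENNReal.mul_pos (by exact_mod_cast (by omega : m ≠ 0)) hm'.ne'
      filter_upwards [hl.eventually_const_lt hpos] with n hn
      exact pos_iff_ne_zero.2 fun e => by simp [e] at hn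
    · rintro (h | h)
      · exact ⟨_, tendsto_of_rate (a := fun m : ℕ => (m : ℝ≥0∞) * fpt p (I m)) rate tendsto_id h⟩
      · exact ⟨_, zero h⟩
  · have h : ∀ m : ℕ, 1 ≤ m → fpt p (I m) = 0 := fun m hm => by
      by_contra h
      exact hne ⟨m, hm, pos_iff_ne_zero.2 h⟩
    refine ⟨⟨1, le_rfl, fun m hm => absurd (one_dvd m) hm, ?_⟩, rate, fun _ => Or.inr h,
      fun _ => ⟨_, zero h⟩⟩
    have e : (⨆ (m : ℕ) (_ : 1 ≤ m), (m : ℝ≥0∞) * fpt p (I m)) = 0 := by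
      simp only [ENNReal.iSup_eq_zero]
      intro m hm
      rw [h m hm, mul_zero]
    simpa only [e, one_mul] using zero h

end Pool.Agent.MP_80c6d6_ag
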