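import Pool.Agent.MP_80c6d6_ag.Node

set_option autoImplicit false
set_option linter.style.haveILetI false

open Filter Topology IsLocalRing RingTheory.Sequence
open scoped ENNReal NNReal TensorProduct Pointwise

namespace Pool.Agent.MP_80c6d6_ag

universe u

theorem isLocalRing_quot {R : Type u} [CommRing R] [IsLocalRing R] {x : R}
    (hx : x ∈ maximalIdeal R) : IsLocalRing (R ⧸ Ideal.span {x}) := by
  have : Nontrivial (R ⧸ Ideal.span {x}) := by
    rw [Ideal.Quotient.nontrivial_iff, Ne, Ideal.span_singleton_eq_top]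
    exact hx
  exact IsLocalRing.of_surjective' (Ideal.Quotient.mk _) Ideal.Quotient.mk_surjective

theorem maximalIdeal_quot {R : Type u} [CommRing R] [IsLocalRing R] (I : Ideal R)
    [IsLocalRing (R ⧸ I)] :
    maximalIdeal (R ⧸ I) = (maximalIdeal R).map (Ideal.Quotient.mk I) :=
  (IsLocalRing.map_maximalIdeal_of_surjective _ Ideal.Quotient.mk_surjective).symm

/-- A module on which a generating sequence of the maximal ideal is regular is free. -/
theorem free_of_isWeaklyRegular (n : ℕ) : ∀ (R : Type u) [CommRing R] [IsLocalRing R]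
    [IsNoetherianRing R] (M : Type u) [AddCommGroup M] [Module R M] [Module.Finite R M]
    (rs : List R), rs.length = n → Ideal.ofList rs = maximalIdeal R → IsWeaklyRegular M rs →
    Module.Free R M := by
  induction n with
  | zero =>
    intro R _ _ _ M _ _ _ rs hl hrs _
    obtain rfl := List.length_eq_zero_iff.mp hl
    have hf : IsField R := isField_iff_maximalIdeal_eq.mpr (by rw [← hrs]; simp)
    letI := hf.toField
    exact Module.Free.of_divisionRing R M
  | succ n ih =>
    intro R _ _ _ M _ _ _ rs hl hrs hreg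
    obtain ⟨x, rs, rfl⟩ := List.exists_cons_of_length_eq_add_one hl
    rw [isWeaklyRegular_cons_iff'] at hreg
    have hx : x ∈ maximalIdeal R := by
      rw [← hrs]; exact Ideal.subset_span (by simp)
    haveI := isLocalRing_quot hx
    haveI : Module.FinitePresentation R M := Module.finitePresentation_of_finite R M
    haveI : Module.Finite (R ⧸ Ideal.span {x}) (QuotSMulTop x M) :=
      Module.Finite.of_restrictScalars_finite R _ _
    rw [← Module.free_quotSMulTop_iff_free R M (maximalIdeal_le_jacobson _ hx) hreg.1]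
    refine ih _ _ _ (by simpa using hl) ?_ hreg.2
    rw [maximalIdeal_quot, ← hrs, Ideal.ofList_cons, Ideal.map_sup, Ideal.map_ofList,
      Ideal.map_quotient_self, bot_sup_eq]

/-- Powers of a regular sequence in a Noetherian local ring. -/
theorem isWeaklyRegular_map_pow {R : Type u} [CommRing R] [IsLocalRing R] [IsNoetherianRing R]
    {q : ℕ} (hq : 1 ≤ q) (l₂ : List R) : ∀ l₁ : List R,
    (∀ r ∈ l₁ ++ l₂, r ∈ maximalIdeal R) → IsWeaklyRegular R (l₁ ++ l₂) →
    IsWeaklyRegular R (l₁ ++ l₂.map (· ^ q)) := by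
  induction l₂ with
  | nil => intro l₁ _ h; simpa using h
  | cons r l₂ ih =>
    intro l₁ hm h
    have hr : r ∈ maximalIdeal R := hm r (by simp)
    have hrq : r ^ q ∈ maximalIdeal R := Ideal.pow_mem_of_mem _ hr _ hq
    have h1 : IsWeaklyRegular R ((l₁ ++ l₂) ++ [r]) :=
      isWeaklyRegular_of_perm_of_subset_maximalIdeal h
        (by rw [List.append_assoc]
            exact List.Perm.append_left _ (List.perm_append_singleton r l₂).symm) hm
    rw [isWeaklyRegular_append_iff, isWeaklyRegular_singleton_iff] at h1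
    have h2 : IsWeaklyRegular R ((l₁ ++ l₂) ++ [r ^ q]) := by
      rw [isWeaklyRegular_append_iff, isWeaklyRegular_singleton_iff]
      exact ⟨h1.1, h1.2.pow q⟩
    have hm' : ∀ s ∈ (l₁ ++ l₂) ++ [r ^ q], s ∈ maximalIdeal R := by
      intro s hs
      simp only [List.mem_append, List.mem_singleton] at hs
      rcases hs with (hs | hs) | rfl
      · exact hm s (by simp [hs])
      · exact hm s (by simp [hs])
      · exact hrq
    have hp : List.Perm ((l₁ ++ l₂) ++ [r ^ q]) ((l₁ ++ [r ^ q]) ++ l₂) := by
      rw [List.append_assoc, List.append_assoc]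
      exact List.Perm.append_left _ List.perm_append_comm
    have h3 := isWeaklyRegular_of_perm_of_subset_maximalIdeal h2 hp hm'
    have h4 := ih (l₁ ++ [r ^ q]) (fun s hs => hm' s (hp.mem_iff.mpr hs)) h3
    simpa using h4

theorem exists_generators_insert {R : Type u} [CommRing R] [IsLocalRing R] (T : Finset R)
    (hT : Ideal.span (T : Set R) = maximalIdeal R) {x : R} (hx : x ∈ maximalIdeal R)
    (hx2 : x ∉ maximalIdeal R ^ 2) :
    ∃ T' : Finset R, T'.card + 1 ≤ T.card ∧
      Ideal.span {x} ⊔ Ideal.span (T' : Set R) = maximalIdeal R := by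
  classical
  have hx' := hx
  rw [← hT] at hx'
  obtain ⟨a, -, ha⟩ := Submodule.mem_span_finset.mp hx'
  have hTm : ∀ t ∈ T, t ∈ maximalIdeal R := fun t ht => hT ▸ Ideal.subset_span ht
  have : ∃ t ∈ T, a t ∉ maximalIdeal R := by
    by_contra hcon
    push Not at hcon
    apply hx2
    rw [← ha, pow_two]
    exact Ideal.sum_mem _ fun t ht => Ideal.mul_mem_mul (hcon t ht) (hTm t ht)
  obtain ⟨t, ht, hat⟩ := this
  refine ⟨T.erase t, (Finset.card_erase_add_one ht).le, le_antisymm ?_ ?_⟩
  · refine sup_le ((Ideal.span_singleton_le_iff_mem _).mpr hx) (Ideal.span_le.mpr ?_)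
    intro s hs
    exact hTm s (Finset.mem_of_mem_erase hs)
  · rw [← hT, Ideal.span_le]
    intro s hs
    by_cases hst : s = t
    · subst hst
      have hu : IsUnit (a s) := by simpa using hat
      rw [SetLike.mem_coe, ← Ideal.unit_mul_mem_iff_mem _ hu]
      rw [← Finset.add_sum_erase T _ ht, smul_eq_mul] at ha
      rw [eq_sub_of_add_eq ha]
      refine Ideal.sub_mem _ (Ideal.mem_sup_left (Ideal.mem_span_singleton_self _))
        (Ideal.mem_sup_right (Ideal.sum_mem _ fun s' hs' => ?_))
      exact Ideal.mul_mem_left _ _ (Ideal.subset_span hs')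
    · exact Ideal.mem_sup_right (Ideal.subset_span (Finset.mem_erase.mpr ⟨hst, hs⟩))

/-- A regular local ring is a domain whose maximal ideal is generated by a regular sequence. -/
theorem regular_aux (n : ℕ) : ∀ (R : Type u) [CommRing R] [IsRegularLocalRing R],
    (maximalIdeal R).spanFinrank = n →
    IsDomain R ∧ ∃ rs : List R, Ideal.ofList rs = maximalIdeal R ∧ IsWeaklyRegular R rs := by
  induction n using Nat.strong_induction_on with
  | _ n ih =>
  intro R _ _ hn
  classical
  have hfg : (maximalIdeal R).FG := IsNoetherian.noetherian _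
  rcases Nat.eq_zero_or_pos n with rfl | hpos
  · have hbot : maximalIdeal R = ⊥ := (Submodule.spanFinrank_eq_zero_iff_eq_bot hfg).mp hn
    have hf : IsField R := isField_iff_maximalIdeal_eq.mpr hbot
    exact ⟨hf.isDomain, [], by simp [hbot], IsWeaklyRegular.nil R R⟩
  have hdim : ringKrullDim R = n := by
    rw [← IsRegularLocalRing.spanFinrank_maximalIdeal, hn]
  have hne : maximalIdeal R ≠ ⊥ := by
    intro h
    rw [h, Submodule.spanFinrank_bot] at hn
    omega
  have h2 : ¬ maximalIdeal R ≤ maximalIdeal R ^ 2 := by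
    intro h
    apply hne
    refine Submodule.eq_bot_of_le_smul_of_le_jacobson_bot (maximalIdeal R) _ hfg ?_
      (maximalIdeal_le_jacobson _)
    rwa [smul_eq_mul, ← pow_two]
  have h3 : ∀ P ∈ minimalPrimes R, ¬ maximalIdeal R ≤ P := by
    intro P hP h
    have hPe : P = maximalIdeal R := ((maximalIdeal.isMaximal R).eq_of_le hP.1.1.ne_top h).symm
    have hh : (maximalIdeal R).height = 0 := by
      rw [← hPe]
      haveI := hP.1.1
      exact Ideal.height_eq_zero_iff.mpr hP
    have := IsLocalRing.maximalIdeal_height_eq_ringKrullDim (R := R)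
    rw [hh, hdim] at this
    have h0 : (0 : ℕ) = n := by exact_mod_cast this
    omega
  have hav : ¬ ((maximalIdeal R : Set R) ⊆
      ⋃ i ∈ insert (maximalIdeal R ^ 2) (minimalPrimes R), ((id i : Ideal R) : Set R)) := by
    rw [Ideal.subset_union_prime_finite ((minimalPrimes.finite_of_isNoetherianRing R).insert _)
      (maximalIdeal R ^ 2) (maximalIdeal R ^ 2)]
    · rintro ⟨i, hi | hi, hle⟩
      · exact h2 (hi ▸ hle)
      · exact h3 i hi hle
    · rintro i (hi | hi) hi2 _
      · exact absurd hi hi2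
      · exact hi.1.1
  obtain ⟨x, hx, hx'⟩ := Set.not_subset.mp hav
  simp only [Set.mem_iUnion, not_exists, id, SetLike.mem_coe] at hx'
  have hx2 : x ∉ maximalIdeal R ^ 2 := hx' _ (Set.mem_insert _ _)
  have hx3 : ∀ P ∈ minimalPrimes R, x ∉ P := fun P hP => hx' P (Set.mem_insert_of_mem _ hP)
  obtain ⟨T, hTc, hT⟩ := Submodule.FG.exists_span_finset_card_eq_spanFinrank hfg
  obtain ⟨T', hT'c, hT'⟩ := exists_generators_insert T hT hx hx2
  haveI := isLocalRing_quot hx
  have hmax : maximalIdeal (R ⧸ Ideal.span {x}) =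
      Ideal.span ((T'.image (Ideal.Quotient.mk (Ideal.span {x})) : Finset _) : Set _) := by
    rw [maximalIdeal_quot, ← hT', Ideal.map_sup, Ideal.map_quotient_self, bot_sup_eq,
      Ideal.map_span, Finset.coe_image]
  have hsf : (maximalIdeal (R ⧸ Ideal.span {x})).spanFinrank + 1 ≤ n := by
    have := Submodule.spanFinrank_span_le_ncard_of_finite (R := R ⧸ Ideal.span {x})
      (T'.image (Ideal.Quotient.mk (Ideal.span {x}))).finite_toSet
    rw [Set.ncard_coe_finset] at this
    have h4 : (T'.image (Ideal.Quotient.mk (Ideal.span {x}))).card ≤ T'.card :=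
      Finset.card_image_le
    rw [hmax]
    change (Submodule.span _ _).spanFinrank + 1 ≤ n
    omega
  have hdq : ringKrullDim R ≤ ringKrullDim (R ⧸ Ideal.span {x}) + 1 := by
    rw [← IsLocalRing.maximalIdeal_height_eq_ringKrullDim]
    exact Ideal.height_le_ringKrullDim_quotient_add_one hx
  haveI : IsRegularLocalRing (R ⧸ Ideal.span {x}) := by
    apply IsRegularLocalRing.of_spanFinrank_maximalIdeal_le
    have h5 : (((maximalIdeal (R ⧸ Ideal.span {x})).spanFinrank : ℕ) : WithBot ℕ∞) + 1 ≤
        ringKrullDim (R ⧸ Ideal.span {x}) + 1 := by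
      refine le_trans ?_ hdq
      rw [hdim]
      exact_mod_cast hsf
    exact ENat.WithBot.add_le_add_one_right_iff.mp h5
  obtain ⟨hdom, rs', hrs', hreg'⟩ := ih _ (by omega) (R ⧸ Ideal.span {x}) rfl
  have hprime : (Ideal.span {x}).IsPrime := (Ideal.Quotient.isDomain_iff_prime _).mp hdom
  obtain ⟨Q, hQ, hQx⟩ := Ideal.exists_minimalPrimes_le (bot_le : ⊥ ≤ Ideal.span {x})
  have hQbot : Q = ⊥ := by
    refine Submodule.eq_bot_of_le_smul_of_le_jacobson_bot (Ideal.span {x}) _
      (IsNoetherian.noetherian _) ?_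
      (((Ideal.span_singleton_le_iff_mem _).mpr hx).trans (maximalIdeal_le_jacobson _))
    intro y hy
    obtain ⟨a, rfl⟩ := Ideal.mem_span_singleton'.mp (hQx hy)
    have : a ∈ Q := (hQ.1.1.mem_or_mem hy).resolve_right (hx3 Q hQ)
    rw [mul_comm]
    exact Ideal.mul_mem_mul (Ideal.mem_span_singleton_self _) this
  have hbp : (⊥ : Ideal R).IsPrime := hQbot ▸ hQ.1.1
  haveI hR : IsDomain R := IsDomain.of_bot_isPrime R
  have hx0 : x ≠ 0 := by
    rintro rfl
    exact hx2 (Ideal.zero_mem _)
  obtain ⟨rs, rfl⟩ := List.map_surjective_iff.mpr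
    (Ideal.Quotient.mk_surjective (I := Ideal.span {x})) rs'
  refine ⟨hR, x :: rs, ?_, ?_⟩
  · rw [← Ideal.map_ofList, maximalIdeal_quot] at hrs'
    have := congrArg (Ideal.comap (Ideal.Quotient.mk (Ideal.span {x}))) hrs'
    rw [Ideal.comap_map_of_surjective _ Ideal.Quotient.mk_surjective,
      Ideal.comap_map_of_surjective _ Ideal.Quotient.mk_surjective, ← RingHom.ker_eq_comap_bot,
      Ideal.mk_ker, sup_eq_left.mpr ((Ideal.span_singleton_le_iff_mem _).mpr hx)] at this
    rw [Ideal.ofList_cons, sup_comm, this]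
  · rw [isWeaklyRegular_cons_iff]
    refine ⟨IsSMulRegular.of_ne_zero hx0, ?_⟩
    have e : QuotSMulTop x R ≃ₗ[R] R ⧸ Ideal.span {x} :=
      Submodule.quotEquivOfEq _ _ (by
        rw [← Submodule.ideal_span_singleton_smul, smul_eq_mul, Ideal.mul_top])
    rw [e.isWeaklyRegular_congr,
      ← isWeaklyRegular_map_algebraMap_iff (R ⧸ Ideal.span {x})]
    exact hreg'

theorem exists_colinear_of_regular {A B : Type u} [CommRing A] [CommRing B] [IsLocalRing A]
    [IsNoetherianRing A] (f : A →+* B) (hfin : f.Finite) (rs : List A)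
    (hrs : Ideal.ofList rs = maximalIdeal A) (hreg : IsWeaklyRegular B (rs.map f)) (c : B)
    (hc : c ∉ (maximalIdeal A).map f) :
    ∃ φ : B →+ A, (∀ r x, φ (f r * x) = r * φ x) ∧ φ c = 1 := by
  letI : Algebra A B := f.toAlgebra
  haveI : Module.Finite A B := hfin
  have hreg' : IsWeaklyRegular B rs := (isWeaklyRegular_map_algebraMap_iff B B rs).mp hreg
  haveI : Module.Free A B := free_of_isWeaklyRegular _ A B rs rfl hrs hreg'
  let b := Module.Free.chooseBasis A B
  have : ∃ i, b.repr c i ∉ maximalIdeal A := by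
    by_contra hcon
    push Not at hcon
    apply hc
    rw [← b.sum_repr c]
    exact Ideal.sum_mem _ fun i _ =>
      Ideal.mul_mem_right _ _ (Ideal.mem_map_of_mem f (hcon i))
  obtain ⟨i, hi⟩ := this
  have hu : IsUnit (b.repr c i) := by simpa using hi
  obtain ⟨v, hv⟩ := hu.exists_left_inv
  refine ⟨(v • b.coord i).toAddMonoidHom, fun r x => (v • b.coord i).map_smul r x, ?_⟩
  simpa using hv

theorem rootSplits_of_regularLocal (p : ℕ) [Fact p.Prime] {R : Type u} [CommRing R]
    [IsRegularLocalRing R] [CharP R p] (hfin : (frobenius R p).Finite) (e : ℕ) (c : R)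
    (hc : c ∉ maximalIdeal R ^ (p ^ e)) : RootSplits (p ^ e) c := by
  have hq : 1 ≤ p ^ e := Nat.one_le_pow _ _ (Fact.out : p.Prime).pos
  obtain ⟨-, rs, hrs, hreg⟩ := regular_aux _ R rfl
  have hm : ∀ r ∈ rs, r ∈ maximalIdeal R := fun r hr => hrs ▸ Ideal.subset_span hr
  have h1 := isWeaklyRegular_map_pow hq rs [] (by simpa using hm) (by simpa using hreg)
  obtain ⟨φ, hφ, h⟩ := exists_colinear_of_regular (iterateFrobenius R p e)
    (iterateFrobenius_finite p hfin e) rs hrs (by
      have : ⇑(iterateFrobenius R p e) = fun x => x ^ p ^ e := rfl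
      rw [this]
      simpa using h1) c (by
      intro h
      apply hc
      refine (Ideal.map_le_iff_le_comap.mpr ?_ :
        (maximalIdeal R).map (iterateFrobenius R p e) ≤ maximalIdeal R ^ (p ^ e)) h
      intro r hr
      exact Ideal.pow_mem_pow hr _)
  exact ⟨φ, fun r x => by simpa [iterateFrobenius_def] using hφ r x, h⟩

theorem charP_localization (p : ℕ) [Fact p.Prime] {R : Type u} [CommRing R] [CharP R p]
    (L : Type u) [CommRing L] [Algebra R L] [Nontrivial L] : CharP L p := by
  have h : (p : L) = 0 := by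
    rw [← map_natCast (algebraMap R L) p, CharP.cast_eq_zero, map_zero]
  exact (CharP.charP_iff_prime_eq_zero (Fact.out : p.Prime)).mpr h

theorem splitsAt_of_regular (p : ℕ) [Fact p.Prime] {R : Type u} [CommRing R] [IsRegularRing R]
    [CharP R p] (hfin : (frobenius R p).Finite) (P : Ideal R) [P.IsPrime] (e : ℕ) (c : R)
    (hc : algebraMap R (Localization.AtPrime P) c ∉
      maximalIdeal (Localization.AtPrime P) ^ (p ^ e)) :
    SplitsAt P (p ^ e) (Ideal.span {c}) := by
  haveI : CharP (Localization.AtPrime P) p := charP_localization p (R := R) _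
  rw [← local_iff_splitsAt p hfin]
  exact ⟨_, Ideal.mem_map_of_mem _ (Ideal.mem_span_singleton_self c),
    rootSplits_of_regularLocal p
      (frobenius_finite_localization p hfin P.primeCompl (Localization.AtPrime P)) e _ hc⟩

theorem rootSplits_one_of_regular (p : ℕ) [Fact p.Prime] {R : Type u} [CommRing R]
    [IsRegularRing R] [CharP R p] (hfin : (frobenius R p).Finite) : RootSplits p (1 : R) := by
  apply rootSplits_of_forall_splitsAt
  intro P hP
  have := splitsAt_of_regular p hfin P 1 1 (by
    rw [map_one]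
    intro h
    have h' := Ideal.pow_le_self (pow_ne_zero 1 (Fact.out : p.Prime).ne_zero) h
    exact (maximalIdeal.isMaximal _).ne_top ((Ideal.eq_top_iff_one _).mpr h'))
  rw [pow_one] at this
  exact splitsAt_span_singleton_iff.mp this

theorem stronglyFRegular_of_regular (p : ℕ) [Fact p.Prime] {R : Type u} [CommRing R]
    [IsRegularRing R] [CharP R p] (hfin : (frobenius R p).Finite) : IsStronglyFRegular p R := by
  intro c hc
  apply exists_rootSplits_of_forall p (rootSplits_one_of_regular p hfin)
  intro P hP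
  have h0 : algebraMap R (Localization.AtPrime P) c ≠ 0 := by
    intro h
    obtain ⟨⟨s, hs⟩, h⟩ := (IsLocalization.map_eq_zero_iff P.primeCompl _ _).mp h
    obtain ⟨Q, hQ, hQP⟩ := Ideal.exists_minimalPrimes_le (bot_le : ⊥ ≤ P)
    have : s * c ∈ Q := by
      simp only at h
      rw [h]; exact Q.zero_mem
    rcases hQ.1.1.mem_or_mem this with h | h
    · exact hs (hQP h)
    · exact hc Q hQ h
  have h1 : ∃ n, algebraMap R (Localization.AtPrime P) c ∉
      maximalIdeal (Localization.AtPrime P) ^ n := by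
    by_contra hcon
    push Not at hcon
    apply h0
    have := Ideal.iInf_pow_eq_bot_of_isLocalRing (maximalIdeal (Localization.AtPrime P))
      (maximalIdeal.isMaximal _).ne_top
    rw [← Ideal.mem_bot, ← this, Ideal.mem_iInf]
    exact hcon
  obtain ⟨n, hn⟩ := h1
  refine ⟨n, splitsAt_of_regular p hfin P n c fun h => hn ?_⟩
  exact Ideal.pow_le_pow_right (Nat.lt_pow_self (Fact.out : p.Prime).one_lt).le h

end Pool.Agent.MP_80c6d6_ag
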