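import Pool.Agent.MP_80c6d6_ag.Regular

set_option autoImplicit false

open Filter Topology Pool.Agent.MP_80c6d6_ag
open scoped ENNReal

namespace Pool.Agent.Results.MP_80c6d6_ag.RegularCase

universe u

theorem result (p : ℕ) [Fact p.Prime] (R : Type u) [CommRing R] [IsRegularRing R] [CharP R p]
    (hfin : (frobenius R p).Finite) (I : ℕ → Ideal R) (hI : IsGradedSeq I) :
    Tendsto (fun m : ℕ => (m : ℝ≥0∞) * fpt p (I m)) atTop
      (𝓝 (⨆ (m : ℕ) (_ : 1 ≤ m), (m : ℝ≥0∞) * fpt p (I m))) :=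
  tendsto_of_stronglyFRegular p hfin (rootSplits_one_of_regular p hfin)
    (stronglyFRegular_of_regular p hfin) I hI

end Pool.Agent.Results.MP_80c6d6_ag.RegularCase
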