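import Pool.Agent.MP_80c6d6_ag.SharpU
import Pool.Agent.MP_80c6d6_ag.Node

set_option autoImplicit false
set_option linter.unusedSectionVars false

open Filter Topology MvPolynomial Finset
open scoped ENNReal NNReal

namespace Pool.Agent.MP_80c6d6_ag

variable (p : ℕ) [Fact p.Prime] {σ : Type} [Fintype σ] [DecidableEq σ]

theorem exists_ext (q e : ℕ) (hq : q = p ^ e) (n0 : σ →₀ ℕ) (hn0 : ∀ i, n0 i < q) :
    ∃ φ : MvPolynomial σ (ZMod p) →+ MvPolynomial σ (ZMod p), PLin q φ ∧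
      (∀ a c, φ (monomial (q • a + n0) c) = monomial a c) ∧
      ∀ b c, (¬ ∃ a, b = q • a + n0) → φ (monomial b c) = 0 := by
  classical
  have hq0 : 0 < q := by rw [hq]; exact Nat.pow_pos (Fact.out : p.Prime).pos
  let g : (σ →₀ ℕ) → MvPolynomial σ (ZMod p) := fun b =>
    if h : ∃ a, b = q • a + n0 then monomial h.choose 1 else 0
  have g1 : ∀ a, g (q • a + n0) = monomial a 1 := by
    intro a
    have h : ∃ a', q • a + n0 = q • a' + n0 := ⟨a, rfl⟩
    simp only [g, dif_pos h]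
    have hs := h.choose_spec
    generalize h.choose = a' at hs
    congr 2
    ext i
    have hi := DFunLike.congr_fun hs i
    simp only [Finsupp.add_apply, Finsupp.smul_apply, smul_eq_mul, add_left_inj] at hi
    exact (Nat.eq_of_mul_eq_mul_left hq0 hi).symm
  have g0 : ∀ b, (¬ ∃ a, b = q • a + n0) → g b = 0 := by
    intro b h
    simp only [g, dif_neg h]
  have g2 : ∀ a b, g (q • a + b) = monomial a 1 * g b := by
    intro a b
    by_cases h : ∃ a', b = q • a' + n0
    · obtain ⟨a', rfl⟩ := h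
      rw [← add_assoc, ← smul_add, g1, g1, monomial_mul, one_mul]
    · rw [g0 b h, mul_zero, g0]
      rintro ⟨a', ha'⟩
      apply h
      refine ⟨a' - a, ?_⟩
      ext i
      have hi := DFunLike.congr_fun ha' i
      simp only [Finsupp.add_apply, Finsupp.smul_apply, smul_eq_mul, Finsupp.tsub_apply] at hi ⊢
      have h1 := hn0 i
      have h2 : a i ≤ a' i := by
        by_contra hlt
        have : q * (a' i + 1) ≤ q * a i := Nat.mul_le_mul_left q (by omega)
        rw [mul_add] at this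
        omega
      obtain ⟨c, hc⟩ := Nat.exists_eq_add_of_le h2
      rw [hc, mul_add] at hi
      rw [hc, Nat.add_sub_cancel_left]
      omega
  let φ : MvPolynomial σ (ZMod p) →ₗ[ZMod p] MvPolynomial σ (ZMod p) :=
    (basisMonomials σ (ZMod p)).constr (ZMod p) g
  have hφ : ∀ b d, φ (monomial b d) = d • g b := by
    intro b d
    have : (monomial b d : MvPolynomial σ (ZMod p)) = d • basisMonomials σ (ZMod p) b := by
      simp [coe_basisMonomials, smul_monomial]
    rw [this, map_smul, Module.Basis.constr_basis]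
  refine ⟨φ.toAddMonoidHom, ?_, fun a c => ?_, fun b c h => ?_⟩
  · intro r x
    change φ (r ^ q * x) = r * φ x
    induction r using MvPolynomial.induction_on' generalizing x with
    | add r₁ r₂ h₁ h₂ =>
      rw [hq, add_pow_char_pow, ← hq, add_mul, map_add, h₁, h₂, add_mul]
    | monomial a c =>
      induction x using MvPolynomial.induction_on' with
      | add x₁ x₂ h₁ h₂ => rw [mul_add, map_add, h₁, h₂, map_add, mul_add]
      | monomial b d =>
        have hc : c ^ q = c := by rw [hq]; exact ZMod.pow_card_pow c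
        rw [monomial_pow, monomial_mul, hφ, hφ, g2, hc]
        have : (monomial a c : MvPolynomial σ (ZMod p)) = c • monomial a 1 := by
          simp [smul_monomial]
        rw [this, smul_mul_smul_comm]
  · change φ _ = _
    rw [hφ, g1, smul_monomial, smul_eq_mul, mul_one]
  · change φ _ = _
    rw [hφ, g0 b h, smul_zero]

/-- The diagonal form of degree `d`. -/
noncomputable def diag (σ : Type) [Fintype σ] (d : ℕ) : MvPolynomial σ (ZMod p) := ∑ l, X l ^ d

theorem ext_diag (d : ℕ) (φ : MvPolynomial σ (ZMod p) →+ MvPolynomial σ (ZMod p))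
    (v b₀ : σ →₀ ℕ) (h₀ : ∑ l, b₀ l = p - 1)
    (h : ∀ b : σ →₀ ℕ, ∑ l, b l = p - 1 → b ≠ b₀ → ∀ c, φ (monomial (d • b + v) c) = 0) :
    ∃ c : ZMod p, c ≠ 0 ∧ φ (diag p σ d ^ (p - 1) * monomial v 1) = φ (monomial (d • b₀ + v) c) := by
  have hp : p.Prime := Fact.out
  have co : ∀ b : σ →₀ ℕ, coeff b ((∑ l, X l : MvPolynomial σ (ZMod p)) ^ (p - 1)) =
      if ∑ l, b l = p - 1 then (b.multinomial : ZMod p) else 0 := fun b => by
    rw [coeff_sum_X_pow_of_fintype, Finsupp.sum_fintype _ _ fun _ => rfl]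
    split_ifs <;> simp
  refine ⟨coeff b₀ ((∑ l, X l : MvPolynomial σ (ZMod p)) ^ (p - 1)), ?_, ?_⟩
  · rw [co, if_pos h₀, Ne, ZMod.natCast_eq_zero_iff, Finsupp.multinomial_eq]
    intro hd
    have := hd.mul_left (∏ i ∈ b₀.support, (b₀ i).factorial)
    rw [Nat.multinomial_spec, hp.dvd_factorial] at this
    have h2 : ∑ i ∈ b₀.support, b₀ i ≤ ∑ l, b₀ l := sum_le_sum_of_subset (subset_univ _)
    have := hp.pos
    omega
  · have e : diag p σ d ^ (p - 1) = expand d ((∑ l, X l : MvPolynomial σ (ZMod p)) ^ (p - 1)) := by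
      simp [diag, map_pow, map_sum, expand_X]
    rw [e]
    generalize (∑ l, X l : MvPolynomial σ (ZMod p)) ^ (p - 1) = W at co
    conv_lhs => rw [W.as_sum]
    simp only [map_sum, sum_mul, expand_monomial, monomial_mul, mul_one]
    refine sum_eq_single b₀ (fun b hb hne => h b ?_ hne _) fun hb => ?_
    · by_contra hn
      exact mem_support_iff.1 hb (by rw [co, if_neg hn])
    · rw [notMem_support_iff.1 hb, monomial_zero, map_zero]

theorem step_diag (s₀ : σ) (d i : ℕ) (hd : d + 1 = p ^ (i + 1)) :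
    ∃ ψ : MvPolynomial σ (ZMod p) →+ MvPolynomial σ (ZMod p), PLin p ψ ∧
      ψ (diag p σ d ^ (p - 1) * X s₀ ^ d) = X s₀ ^ d := by
  have hp : p.Prime := Fact.out
  have hp0 := hp.pos
  obtain ⟨φ, h1, h2, h3⟩ := exists_ext p p 1 (pow_one p).symm (0 : σ →₀ ℕ) fun _ => hp0
  obtain ⟨c, hc, h⟩ := ext_diag p d φ (Finsupp.single s₀ d) (Finsupp.single s₀ (p - 1))
    (by simp only [Finsupp.single_apply, sum_ite_eq, mem_univ, if_true])
    fun b hb hne c => h3 _ c (by
      rintro ⟨a, ha⟩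
      have hz : ∀ l, l ≠ s₀ → b l = 0 := fun l hl => by
        have e := DFunLike.congr_fun ha l
        simp only [Finsupp.add_apply, Finsupp.smul_apply, smul_eq_mul, Finsupp.single_apply,
          if_neg hl.symm, add_zero] at e
        have d1 : p ∣ d * b l + b l := by
          rw [← add_one_mul, hd, pow_succ', mul_assoc]
          exact dvd_mul_right _ _
        have d2 : p ∣ b l := (Nat.dvd_add_right (e ▸ dvd_mul_right _ _)).1 d1
        have d3 : b l ≤ ∑ l, b l := single_le_sum (f := fun l => b l) (fun _ _ => zero_le) (mem_univ l)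
        exact Nat.eq_zero_of_dvd_of_lt d2 (by omega)
      apply hne
      ext l
      by_cases hl : l = s₀
      · subst hl
        rw [Finsupp.single_eq_same, ← hb, sum_eq_single l (fun j _ hj => hz j hj) (by simp)]
      · rw [hz l hl, Finsupp.single_eq_of_ne hl])
  have e : d • Finsupp.single s₀ (p - 1) + Finsupp.single s₀ d = p • Finsupp.single s₀ d + 0 := by
    obtain ⟨k, rfl⟩ : ∃ k, p = k + 1 := ⟨p - 1, by omega⟩
    rw [Finsupp.smul_single, Finsupp.smul_single, ← Finsupp.single_add, add_zero]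
    congr 1
    simp only [smul_eq_mul, Nat.add_sub_cancel]
    ring
  rw [e, h2] at h
  refine ⟨_, h1.postmul (C c⁻¹), ?_⟩
  simp only [AddMonoidHom.comp_apply, AddMonoidHom.coe_mulLeft]
  rw [X_pow_eq_monomial, h, C_mul_monomial, inv_mul_cancel₀ hc]

theorem last_diag (hσ : Fintype.card σ = p) (s₀ : σ) (d i : ℕ) (hd : d + 1 = p ^ (i + 1)) :
    ∃ φ : MvPolynomial σ (ZMod p) →+ MvPolynomial σ (ZMod p), PLin (p ^ (i + 1)) φ ∧
      φ (diag p σ d ^ (p - 1) * X s₀ ^ d) = 1 := by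
  have hp : p.Prime := Fact.out
  have hd0 : 0 < d := by
    have := Nat.one_lt_pow (by omega : i + 1 ≠ 0) hp.one_lt
    omega
  obtain ⟨φ, h1, h2, h3⟩ := exists_ext p (p ^ (i + 1)) (i + 1) rfl
    (Finsupp.equivFunOnFinite.symm fun _ : σ => d) fun _ => by simp; omega
  have hs : ∑ l, (Finsupp.equivFunOnFinite.symm fun l : σ => if l = s₀ then 0 else 1 : σ →₀ ℕ) l =
      p - 1 := by
    simp only [Finsupp.coe_equivFunOnFinite_symm]
    rw [← add_sum_erase _ _ (mem_univ s₀), if_pos rfl, zero_add,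
      sum_congr rfl fun l hl => if_neg (mem_erase.1 hl).1]
    simp [hσ]
  obtain ⟨c, hc, h⟩ := ext_diag p d φ (Finsupp.single s₀ d) _ hs fun b hb hne c => h3 _ c (by
    rintro ⟨a, ha⟩
    apply hne
    ext l
    refine ((sum_eq_sum_iff_of_le fun l _ => ?_).1 (hs.trans hb.symm) l (mem_univ l)).symm
    simp only [Finsupp.coe_equivFunOnFinite_symm]
    split_ifs with hl
    · exact zero_le
    · have e := DFunLike.congr_fun ha l
      simp only [Finsupp.add_apply, Finsupp.smul_apply, smul_eq_mul, Finsupp.single_apply,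
        if_neg (Ne.symm hl), add_zero, Finsupp.coe_equivFunOnFinite_symm] at e
      refine Nat.pos_of_ne_zero fun h0 => ?_
      rw [h0] at e
      omega)
  have e : d • (Finsupp.equivFunOnFinite.symm fun l : σ => if l = s₀ then 0 else 1 : σ →₀ ℕ) +
      Finsupp.single s₀ d = p ^ (i + 1) • 0 + Finsupp.equivFunOnFinite.symm fun _ : σ => d := by
    ext l
    by_cases hl : l = s₀
    · simp [hl]
    · simp [hl]
  rw [e, h2] at h
  refine ⟨_, h1.postmul (C c⁻¹), ?_⟩
  simp only [AddMonoidHom.comp_apply, AddMonoidHom.coe_mulLeft]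
  rw [X_pow_eq_monomial, h, C_mul_monomial, inv_mul_cancel₀ hc]
  rfl

theorem pow_split {M : Type} [CommMonoid M] (g : M) (j : ℕ) :
    g ^ (p ^ (j + 1) - 1) = (g ^ (p - 1)) ^ p ^ j * g ^ (p ^ j - 1) := by
  have hp := (Fact.out : p.Prime).pos
  have h1 := Nat.pow_pos (n := j) hp
  rw [← pow_mul, ← pow_add]
  congr 1
  obtain ⟨k, rfl⟩ : ∃ k, p = k + 1 := ⟨p - 1, by omega⟩
  rw [pow_succ, mul_add, Nat.add_sub_cancel, mul_comm k]
  omega

theorem split_diag (hσ : Fintype.card σ = p) (s₀ : σ) (d i : ℕ) (hd : d + 1 = p ^ (i + 1))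
    (j : ℕ) : ∃ φ : MvPolynomial σ (ZMod p) →+ MvPolynomial σ (ZMod p),
      PLin (p ^ (i + 1 + j)) φ ∧ φ (diag p σ d ^ (p ^ (j + 1) - 1) * X s₀ ^ d) = 1 := by
  obtain ⟨ψ₁, a1, a2⟩ := step_diag p s₀ d i hd
  obtain ⟨φ, b1, b2⟩ := last_diag p hσ s₀ d i hd
  have key : ∃ ψ : MvPolynomial σ (ZMod p) →+ MvPolynomial σ (ZMod p),
      PLin (p ^ j) ψ ∧ ψ (diag p σ d ^ (p ^ j - 1) * X s₀ ^ d) = X s₀ ^ d := by
    induction j with
    | zero => exact ⟨AddMonoidHom.id _, by simpa using PLin.id, by simp⟩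
    | succ j ih =>
      obtain ⟨ψ, c1, c2⟩ := ih
      refine ⟨ψ₁.comp ψ, by rw [pow_succ']; exact a1.comp c1, ?_⟩
      rw [AddMonoidHom.comp_apply, pow_split, mul_assoc, c1, c2, a2]
  obtain ⟨ψ, c1, c2⟩ := key
  refine ⟨φ.comp ψ, by rw [pow_add]; exact b1.comp c1, ?_⟩
  rw [AddMonoidHom.comp_apply, pow_split, mul_assoc, c1, c2, b2]

theorem split_prod (N e : ℕ) (hN : N < p ^ e) :
    RootSplits (p ^ e) ((∏ l, X l : MvPolynomial σ (ZMod p)) ^ N) := by
  obtain ⟨φ, h1, h2, -⟩ := exists_ext p (p ^ e) e rfl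
    (Finsupp.equivFunOnFinite.symm fun _ : σ => N) fun _ => by simpa using hN
  refine ⟨φ, h1, ?_⟩
  have := h2 0 1
  rw [smul_zero, zero_add, monomial_eq, Finsupp.prod_fintype _ _ (by simp)] at this
  simpa [prod_pow] using this

theorem le_fpt_of_splits {R : Type} [CommRing R] [CharP R p] [IsNoetherianRing R]
    (hfin : (frobenius R p).Finite) (hsplit : RootSplits p (1 : R)) (𝔞 : Ideal R) (i : ℕ)
    (h : ∀ (j : ℕ) (P : Ideal R) [P.IsPrime],
      SplitsAt P (p ^ (i + 1 + j)) (𝔞 ^ (p ^ (j + 1) - 1))) :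
    (fpt p 𝔞)⁻¹ ≤ (p : ℝ≥0∞) ^ i := by
  have hp : p.Prime := Fact.out
  have hp1 : (1 : ℝ) < p := by exact_mod_cast hp.one_lt
  have hq : (0 : ℝ≥0) < (p : ℝ≥0) ^ i := by
    have : (0 : ℝ≥0) < p := by exact_mod_cast hp.pos
    positivity
  rw [ENNReal.inv_le_iff_inv_le, show (p : ℝ≥0∞) ^ i = (((p : ℝ≥0) ^ i : ℝ≥0) : ℝ≥0∞) by simp,
    ← ENNReal.coe_inv hq.ne']
  refine ENNReal.le_of_forall_nnreal_lt fun w hw => le_fpt ?_
  have h1 : w < ((p : ℝ≥0) ^ i)⁻¹ := by exact_mod_cast hw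
  have h2 : w * (p : ℝ≥0) ^ i < 1 := (lt_mul_inv_iff₀ hq).1 (by rwa [one_mul])
  have h3 : (w : ℝ) * (p : ℝ) ^ i < 1 := by exact_mod_cast h2
  obtain ⟨j, hj⟩ := (((tendsto_pow_atTop_atTop_of_one_lt hp1).const_mul_atTop
    (sub_pos.2 h3)).eventually_gt_atTop 1).exists
  refine pure_of_level p hfin (𝔟 := ⊤) (u := w * (p : ℝ≥0) ^ (i + 1 + j) + 1) (k := 1) (h j) ?_
    (by simp) ?_ (by push_cast; linarith)
  · rw [isFPurePair_iff p hfin]
    intro P hP
    refine .of_forall fun e => ?_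
    rw [Ideal.top_pow]
    exact ((hsplit.splitsAt P).mono le_top).pow_top hp.pos e
  · rw [Nat.cast_sub (Nat.one_le_pow _ _ hp.pos)]
    push_cast
    have h4 : (0 : ℝ) < (p : ℝ) ^ j := by positivity
    have e : (p : ℝ) ^ (i + 1 + j) = p ^ i * (p ^ j * p) := by ring
    rw [e, pow_succ]
    nlinarith [mul_pos (sub_pos.2 h3) h4]

theorem fpt_prod_diag (d i : ℕ) (hd : d + 1 = p ^ (i + 1)) :
    (p : ℝ≥0∞) ^ (i + 1) ≤ (fpt p (Ideal.span {(∏ l, X l) * diag p σ d}))⁻¹ := by
  have hp : p.Prime := Fact.out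
  rw [ENNReal.le_inv_iff_mul_le, fpt]
  simp only [ENNReal.mul_iSup, iSup_le_iff]
  intro t ht
  by_contra hn
  have h1 : (1 : ℝ≥0) < (p : ℝ≥0) ^ (i + 1) * t := by exact_mod_cast not_le.1 hn
  have h2 : (1 : ℝ) < (p : ℝ) ^ (i + 1) * t := by exact_mod_cast h1
  have hP : (RingHom.ker (constantCoeff : MvPolynomial σ (ZMod p) →+* ZMod p)).IsPrime :=
    RingHom.ker_isPrime _
  have := splitsAt_of_pure' p (frobenius_finite_of_finiteType p _)
    (s := {(∏ l, X l) * diag p σ d}) (by simp) (by rwa [coe_singleton])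
    (RingHom.ker (constantCoeff : MvPolynomial σ (ZMod p) →+* ZMod p)) (i + 1) 0 (by simpa [mul_comm] using h2)
  rw [zero_add, pow_one, coe_singleton] at this
  obtain ⟨φ, hφ, h⟩ := splitsAt_span_singleton_iff.1 this
  apply h
  rw [diag, mul_sum, map_sum]
  refine Ideal.sum_mem _ fun l _ => ?_
  rw [← mul_prod_erase _ _ (mem_univ l), mul_right_comm, ← pow_succ', hd, hφ]
  exact Ideal.mul_mem_right _ _ (by simp [RingHom.mem_ker])

theorem sharp_lower (c : ℝ≥0)
    (H : ∀ (R : Type) [CommRing R] [IsNoetherianRing R] [CharP R p], (frobenius R p).Finite →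
      IsPureHom (frobenius R p) → ∀ I : ℕ → Ideal R, IsGradedSeq I →
      ∀ (m r k : ℕ) (s : Finset R), 1 ≤ m → 1 ≤ r → Ideal.span (s : Set R) = I m → I m ≠ ⊤ →
      0 < fpt p (I m) → 0 < fpt p (I r) → (fpt p (I (k * m + r)))⁻¹ ≤
        k * (fpt p (I m))⁻¹ + c * s.card * (fpt p (I m))⁻¹ * (fpt p (I r))⁻¹) :
    (p : ℝ≥0) ≤ c := by
  have hp : p.Prime := Fact.out
  have hp1 : (1 : ℝ) < p := by exact_mod_cast hp.one_lt
  have key : ∀ i : ℕ, (p : ℝ≥0∞) ^ (i + 1) ≤ 1 + c * (p : ℝ≥0∞) ^ i := by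
    intro i
    obtain ⟨d, hd⟩ : ∃ d, d + 1 = p ^ (i + 1) := ⟨p ^ (i + 1) - 1, by
      have := Nat.pow_pos (n := i + 1) hp.pos
      omega⟩
    have hfin := frobenius_finite_of_finiteType p (MvPolynomial (Fin p) (ZMod p))
    have hsp : RootSplits p (1 : MvPolynomial (Fin p) (ZMod p)) := by
      simpa using split_prod p (σ := Fin p) 0 1 (by simpa using hp.pos)
    have hpure : IsPureHom (frobenius (MvPolynomial (Fin p) (ZMod p)) p) := by
      obtain ⟨φ, hφ, h1⟩ := hsp
      exact isPureHom_of_retraction _ φ (fun r x => by simpa [frobenius_def] using hφ r x) h1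
    have hX : (fpt p (Ideal.span {(∏ l, X l : MvPolynomial (Fin p) (ZMod p))}))⁻¹ ≤ 1 := by
      have := le_fpt_of_splits p hfin hsp (Ideal.span {∏ l, X l}) 0 fun j P _ => by
        rw [Ideal.span_singleton_pow]
        refine (split_prod p _ _ ?_).splitsAt P
        have := Nat.pow_pos (n := j + 1) hp.pos
        rw [zero_add, add_comm 1 j]
        omega
      rwa [pow_zero] at this
    have hg : (fpt p (Ideal.span {diag p (Fin p) d}))⁻¹ ≤ (p : ℝ≥0∞) ^ i :=
      le_fpt_of_splits p hfin hsp _ i fun j P hP => by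
        obtain ⟨φ, h1, h2⟩ := split_diag p (Fintype.card_fin p) ⟨0, hp.pos⟩ d i hd j
        refine ⟨φ, h1, diag p (Fin p) d ^ (p ^ (j + 1) - 1) * X ⟨0, hp.pos⟩ ^ d,
          Ideal.mul_mem_right _ _ (Ideal.pow_mem_pow (Ideal.mem_span_singleton_self _) _), ?_⟩
        rw [h2]
        exact (Ideal.ne_top_iff_one P).1 hP.ne_top
    have hXg := fpt_prod_diag p (σ := Fin p) d i hd
    have x0 : (∏ l, X l : MvPolynomial (Fin p) (ZMod p)) ≠ 0 :=
      prod_ne_zero_iff.2 fun l _ => X_ne_zero l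
    have x1 : Ideal.span {(∏ l, X l : MvPolynomial (Fin p) (ZMod p))} ≠ ⊤ := by
      rw [Ne, Ideal.span_singleton_eq_top]
      intro hu
      have := hu.map constantCoeff
      rw [map_prod, prod_eq_zero (mem_univ ⟨0, hp.pos⟩) (constantCoeff_X _ _)] at this
      exact not_isUnit_zero this
    have g0 : diag p (Fin p) d ≠ 0 := by
      intro h0
      obtain ⟨φ, -, h2⟩ := last_diag p (Fintype.card_fin p) ⟨0, hp.pos⟩ d i hd
      rw [h0, zero_pow (by have := hp.one_lt; omega), zero_mul, map_zero] at h2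
      exact zero_ne_one h2
    generalize (∏ l, X l : MvPolynomial (Fin p) (ZMod p)) = x at hX hXg x0 x1
    generalize diag p (Fin p) d = g at hg hXg g0
    have pos : ∀ {a b : ℝ≥0∞}, a⁻¹ ≤ b → b ≠ ⊤ → 0 < a := fun h hb =>
      ENNReal.inv_lt_top.1 (h.trans_lt hb.lt_top)
    have := H _ hfin hpure
      (fun n => Ideal.span {x ^ (if 3 ∣ n then 0 else 1) * g ^ (if 2 ∣ n then 0 else 1)})
      ⟨fun m _ => ⟨_, Ideal.subset_span rfl, mem_circ_of_mem_nonZeroDivisors
        (mem_nonZeroDivisors_of_ne_zero (mul_ne_zero (pow_ne_zero _ x0) (pow_ne_zero _ g0)))⟩,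
        fun m n _ _ => by
          rw [Ideal.span_singleton_mul_span_singleton, Ideal.span_singleton_le_span_singleton,
            mul_mul_mul_comm, ← pow_add, ← pow_add]
          refine mul_dvd_mul (pow_dvd_pow _ ?_) (pow_dvd_pow _ ?_) <;> split_ifs <;> omega⟩
      2 3 1 {x} (by norm_num) (by norm_num) (by simp) (by simpa using x1)
      (by simpa using pos hX ENNReal.one_ne_top)
      (by simpa using pos hg (ENNReal.pow_ne_top (ENNReal.natCast_ne_top p)))
    norm_num at this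
    refine hXg.trans (this.trans ?_)
    calc _ ≤ 1 + c * 1 * (p : ℝ≥0∞) ^ i := by gcongr
      _ = _ := by rw [mul_one]
  by_contra hn
  have h1 : (c : ℝ) < p := by exact_mod_cast not_le.1 hn
  obtain ⟨i, hi⟩ := (((tendsto_pow_atTop_atTop_of_one_lt hp1).const_mul_atTop
    (sub_pos.2 h1)).eventually_gt_atTop 1).exists
  have h2 : (p : ℝ≥0) ^ (i + 1) ≤ 1 + c * (p : ℝ≥0) ^ i := by exact_mod_cast key i
  have h3 : (p : ℝ) ^ (i + 1) ≤ 1 + c * (p : ℝ) ^ i := by exact_mod_cast h2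
  rw [pow_succ] at h3
  linarith

end Pool.Agent.MP_80c6d6_ag
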