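import Pool.Agent.MP_80c6d6_ag.Rate

set_option autoImplicit false

open Filter Topology
open scoped ENNReal NNReal

namespace Pool.Agent.MP_80c6d6_ag

universe u

variable {R : Type u} [CommRing R]

theorem span_pow_le_succ (Q : ℕ) (hQ : 1 ≤ Q) (F : Ideal R) (s : Finset R) (hs : 1 ≤ s.card)
    (hF : ∀ x ∈ s, x ^ Q ∈ F) (r : ℕ) :
    ∀ N, (r + s.card) * Q ≤ N → Ideal.span (s : Set R) ^ N ≤ F ^ (r + 1) := by
  have h1 : 1 ≤ s.card * Q := Nat.mul_pos hs hQ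
  induction r with
  | zero =>
    intro N hN
    rw [zero_add] at hN
    rw [zero_add, pow_one]
    exact (span_pow_le Q F s hF N hN (by omega)).trans Ideal.mul_le_left
  | succ r ih =>
    intro N hN
    have e : (r + 1 + s.card) * Q = (r + s.card) * Q + Q := by ring
    have e' : (r + s.card) * Q = r * Q + s.card * Q := by ring
    rw [pow_succ']
    exact (span_pow_le Q F s hF N (by omega) (by omega)).trans
      (Ideal.mul_mono_right (ih _ (by omega)))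

theorem SplitsAt.descend' (p : ℕ) [Fact p.Prime] [CharP R p] {P : Ideal R} {q j r N : ℕ}
    {s : Finset R} (hs : 1 ≤ s.card) (hN : (r + s.card) * p ^ j ≤ N)
    (h : SplitsAt P (q * p ^ j) (Ideal.span (s : Set R) ^ N)) :
    SplitsAt P q (Ideal.span (s : Set R) ^ (r + 1)) := by
  rw [splitsAt_iff_not_le] at h ⊢
  intro hle
  apply h
  refine (span_pow_le_succ (p ^ j) (Nat.one_le_pow _ _ (Fact.out : p.Prime).pos)
    ((Ideal.span (s : Set R)).map (iterateFrobenius R p j)) s hs (fun x hx => ?_) r N hN).trans ?_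
  · rw [← iterateFrobenius_def]
    exact Ideal.mem_map_of_mem _ (Ideal.subset_span hx)
  · rw [← Ideal.map_pow, Ideal.map_le_iff_le_comap]
    intro x hx φ hφ
    refine hle hx (φ.comp (iterateFrobenius R p j).toAddMonoidHom) fun a y => ?_
    simp only [AddMonoidHom.comp_apply, RingHom.toAddMonoidHom_eq_coe, AddMonoidHom.coe_coe,
      iterateFrobenius_def]
    rw [mul_pow, ← pow_mul, hφ]

variable (p : ℕ) [Fact p.Prime] [CharP R p] [IsNoetherianRing R]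

theorem splitsAt_of_pure' (hfin : (frobenius R p).Finite) {s : Finset R} (hs : 1 ≤ s.card)
    {t : ℝ≥0} (h : IsFPurePair p (Ideal.span (s : Set R)) t) (P : Ideal R) [P.IsPrime] (e r : ℕ)
    (hr : (r : ℝ) + s.card < t * (p : ℝ) ^ e) :
    SplitsAt P (p ^ e) (Ideal.span (s : Set R) ^ (r + 1)) := by
  have hp1 : (1 : ℝ) < p := by exact_mod_cast (Fact.out : p.Prime).one_lt
  rw [isFPurePair_iff p hfin] at h
  have h1 := (tendsto_add_atTop_nat e).eventually (h P)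
  have h2 := ((tendsto_pow_atTop_atTop_of_one_lt hp1).const_mul_atTop
    (sub_pos.2 hr)).eventually_ge_atTop (t : ℝ)
  obtain ⟨j, hj, hj'⟩ := (h1.and h2).exists
  rw [add_comm j e, pow_add] at hj
  refine SplitsAt.descend' p hs ?_ hj
  have := Nat.le_ceil ((t : ℝ) * ((p : ℝ) ^ (e + j) - 1))
  have h3 : ((r : ℝ) + s.card) * (p : ℝ) ^ j ≤ t * ((p : ℝ) ^ (e + j) - 1) := by
    rw [pow_add]
    linarith
  exact_mod_cast h3.trans this

theorem le_card_of_pure (hfin : (frobenius R p).Finite) {s : Finset R} (hs : 1 ≤ s.card)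
    (hne : Ideal.span (s : Set R) ≠ ⊤) {t : ℝ≥0}
    (h : IsFPurePair p (Ideal.span (s : Set R)) t) : (t : ℝ) ≤ s.card := by
  by_contra hn
  obtain ⟨M, hM, hle⟩ := Ideal.exists_le_maximal _ hne
  obtain ⟨φ, hφ, d, hd, hP⟩ := splitsAt_of_pure' p hfin hs h M 0 0 (by simpa using hn)
  rw [zero_add, pow_one] at hd
  have := hφ d 1
  rw [pow_zero, pow_one, mul_one] at this
  exact hP (this ▸ M.mul_mem_right _ (hle hd))

theorem pure_of_lt' (hfin : (frobenius R p).Finite) {s : Finset R} (hs : 1 ≤ s.card)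
    (hne : Ideal.span (s : Set R) ≠ ⊤) {𝔟 J : Ideal R} {t u w : ℝ≥0} {k : ℕ} (ht : 0 < t)
    (hu : 0 < u) (ha : IsFPurePair p (Ideal.span (s : Set R)) t) (hb : IsFPurePair p 𝔟 u)
    (hJ : Ideal.span (s : Set R) ^ k * 𝔟 ≤ J)
    (hw : (w : ℝ) * (k * (t : ℝ)⁻¹ + p * s.card * (t : ℝ)⁻¹ * (u : ℝ)⁻¹) < 1) :
    IsFPurePair p J w := by
  have hp1 : (1 : ℝ) < p := by exact_mod_cast (Fact.out : p.Prime).one_lt
  have a2 : (0 : ℝ) < u := hu
  have a3 : (0 : ℝ) ≤ w := w.2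
  have a4 : (0 : ℝ) < t := ht
  have a5 : (0 : ℝ) ≤ k := Nat.cast_nonneg _
  have a6 : (0 : ℝ) < s.card := by exact_mod_cast hs
  have a7 := le_card_of_pure p hfin hs hne ha
  obtain ⟨N, hN⟩ : ∃ N : ℝ, N = k * (t : ℝ)⁻¹ + p * s.card * (t : ℝ)⁻¹ * (u : ℝ)⁻¹ := ⟨_, rfl⟩
  rw [← hN] at hw
  have hN1 : t * (u * N) = u * k + p * s.card := by rw [hN]; field_simp
  have hN0 : 0 < N := by rw [hN]; positivity
  have h1 : 1 ≤ u * N := by
    refine le_of_mul_le_mul_left ?_ a4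
    rw [hN1]
    nlinarith [mul_nonneg a2.le a5]
  obtain ⟨e, he1, he2⟩ := exists_nat_pow_near (x := u * N) (y := (p : ℝ)) h1 hp1
  have hq : (0 : ℝ) < (p : ℝ) ^ e := by positivity
  generalize hqd : (p : ℝ) ^ e = q at hq he1
  rw [pow_succ, hqd] at he2
  have b1 : (w : ℝ) * q < u := by
    calc (w : ℝ) * q ≤ w * (u * N) := by gcongr
      _ = u * (w * N) := by ring
      _ < u * 1 := by gcongr
      _ = u := mul_one _
  have b2 : (k : ℝ) * w * q + s.card < t * q := by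
    have c1 : (k : ℝ) * (w * N) ≤ k := by nlinarith
    refine lt_of_mul_lt_mul_right ?_ (mul_pos a2 hN0).le
    calc ((k : ℝ) * w * q + s.card) * (u * N)
        = q * u * (k * (w * N)) + s.card * (u * N) := by ring
      _ < q * u * k + s.card * (q * p) := add_lt_add_of_le_of_lt (by gcongr) (by gcongr)
      _ = q * (u * k + p * s.card) := by ring
      _ = t * q * (u * N) := by rw [← hN1]; ring
  subst hqd
  have f0 : 0 ≤ (k : ℝ) * w * (p : ℝ) ^ e := by positivity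
  refine pure_of_level p hfin (r := ⌊(k : ℝ) * w * (p : ℝ) ^ e⌋₊ + 1) (e := e)
    (fun P _ => splitsAt_of_pure' p hfin hs ha P e _ ?_) hb hJ ?_ b1
  · have := Nat.floor_le f0
    linarith
  · push_cast
    exact Nat.lt_floor_add_one _

omit [IsNoetherianRing R] in
theorem le_at_fpt {p : ℕ} {𝔞 : Ideal R} (h0 : 0 < fpt p 𝔞) {A B C : ℝ≥0∞} (hC : C ≠ ⊤)
    (h : ∀ t : ℝ≥0, 0 < t → IsFPurePair p 𝔞 t → A ≤ B + C * (t : ℝ≥0∞)⁻¹) :
    A ≤ B + C * (fpt p 𝔞)⁻¹ := by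
  have lim : Tendsto (fun x : ℝ≥0∞ => B + C * x⁻¹) (𝓝 (fpt p 𝔞)) (𝓝 (B + C * (fpt p 𝔞)⁻¹)) :=
    tendsto_const_nhds.add (ENNReal.Tendsto.const_mul (continuous_inv.tendsto _) (Or.inr hC))
  by_contra hn
  obtain ⟨y, hy, hy'⟩ := exists_Ioc_subset_of_mem_nhds
    (lim.eventually_lt_const (not_le.1 hn)) ⟨0, h0⟩
  have hy2 := hy
  simp only [fpt, lt_iSup_iff] at hy2
  obtain ⟨t, ht, hyt⟩ := hy2
  exact absurd (h t (by exact_mod_cast zero_le.trans_lt hyt) ht)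
    (not_le.2 (hy' ⟨hyt, le_fpt ht⟩))

/-- The explicit substitute for subadditivity. -/
theorem inv_fpt_le' (hfin : (frobenius R p).Finite) {s : Finset R}
    (hne : Ideal.span (s : Set R) ≠ ⊤) {𝔟 J : Ideal R} (hs : 1 ≤ s.card)
    (ha : 0 < fpt p (Ideal.span (s : Set R))) (hb : 0 < fpt p 𝔟) {k : ℕ}
    (hJ : Ideal.span (s : Set R) ^ k * 𝔟 ≤ J) :
    (fpt p J)⁻¹ ≤ k * (fpt p (Ideal.span (s : Set R)))⁻¹ +
      p * s.card * (fpt p (Ideal.span (s : Set R)))⁻¹ * (fpt p 𝔟)⁻¹ := by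
  have hp0 : (0 : ℝ≥0) < p := by exact_mod_cast (Fact.out : p.Prime).pos
  have hs0 : (0 : ℝ≥0) < s.card := by exact_mod_cast hs
  have e : ∀ x y : ℝ≥0∞, k * x + p * s.card * x * y = 0 + (k + p * s.card * y) * x := by
    intro x y; ring
  have hfin' : ∀ y : ℝ≥0∞, y ≠ ⊤ → (p : ℝ≥0∞) * s.card * y ≠ ⊤ := fun y hy =>
    ENNReal.mul_ne_top (ENNReal.mul_ne_top (ENNReal.natCast_ne_top _) (ENNReal.natCast_ne_top _)) hy
  rw [e]
  refine le_at_fpt ha (ENNReal.add_ne_top.2 ⟨ENNReal.natCast_ne_top _,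
    hfin' _ (ENNReal.inv_ne_top.2 hb.ne')⟩) fun t ht h => ?_
  rw [← e]
  refine le_at_fpt hb (hfin' _ (ENNReal.inv_ne_top.2 (by exact_mod_cast ht.ne'))) fun u hu h' => ?_
  have hN : 0 < k * t⁻¹ + p * s.card * t⁻¹ * u⁻¹ := by positivity
  have e' : (k * (t : ℝ≥0∞)⁻¹ + p * s.card * (t : ℝ≥0∞)⁻¹ * (u : ℝ≥0∞)⁻¹) =
      ((k * t⁻¹ + p * s.card * t⁻¹ * u⁻¹ : ℝ≥0) : ℝ≥0∞) := by
    push_cast [ENNReal.coe_inv ht.ne', ENNReal.coe_inv hu.ne']
    rfl
  rw [e', ENNReal.inv_le_iff_inv_le, ← ENNReal.coe_inv hN.ne']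
  refine ENNReal.le_of_forall_nnreal_lt fun w hw => le_fpt ?_
  refine pure_of_lt' p hfin hs hne ht hu h h' hJ ?_
  have h1 : w < (k * t⁻¹ + p * s.card * t⁻¹ * u⁻¹)⁻¹ := by exact_mod_cast hw
  have h2 : w * (k * t⁻¹ + p * s.card * t⁻¹ * u⁻¹) < 1 := (lt_mul_inv_iff₀ hN).1 (by rwa [one_mul])
  exact_mod_cast h2

end Pool.Agent.MP_80c6d6_ag
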